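import Pool.Agent.FMV.Count

/-!
Diagrams read from bottom to top.
-/

namespace Pool.Agent.FMV

/-- The piece read from bottom to top. -/
def Piece.flip : Piece → Piece
  | .pos => .pos
  | .neg => .neg
  | .cup => .cap
  | .cap => .cup

theorem Piece.flip_ins (a : Piece) : a.flip.ins = a.outs := by cases a <;> rfl

theorem Piece.flip_outs (a : Piece) : a.flip.outs = a.ins := by cases a <;> rfl

theorem Piece.flip_flip (a : Piece) : a.flip.flip = a := by cases a <;> rfl

/-- The diagram read from bottom to top. -/
def flip (w : Word) : Word := (w.map fun l => ⟨l.kind.flip, l.place⟩).reverse

@[simp] theorem flip_nil : flip [] = [] := rfl

@[simp] theorem flip_append (a b : Word) : flip (a ++ b) = flip b ++ flip a := by simp [flip]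

theorem flip_cons (l : Letter) (w : Word) : flip (l :: w) = flip w ++ [⟨l.kind.flip, l.place⟩] := by
  simp [flip]

@[simp] theorem flip_flip (w : Word) : flip (flip w) = w := by
  simp only [flip, List.map_reverse, List.reverse_reverse, List.map_map]
  conv_rhs => rw [← List.map_id w]
  refine List.map_congr_left fun l _ => ?_
  simp [Piece.flip_flip]

theorem run_flip {n m : ℕ} {w : Word} (h : run n w = some m) : run m (flip w) = some n := by
  induction w generalizing n with
  | nil =>
      simp only [run, Option.some.injEq] at h
      subst h
      rfl
  | cons l w ih =>
      simp only [run] at h
      split at h
      · rename_i hl
        rw [flip_cons]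
        refine run_append_of (ih h) ?_
        simp only [run, Piece.flip_ins, Piece.flip_outs]
        rw [if_pos (by omega)]
        congr 1
        omega
      · simp at h

/-- The moves read from bottom to top. -/
theorem Move.flip {l r : Word} (h : Move l r) :
    Move (FMV.flip l) (FMV.flip r) ∨ Move (FMV.flip r) (FMV.flip l) := by
  cases h with
  | far a b i k =>
      right
      have := Move.far a.flip b.flip i k
      rw [Piece.flip_ins, Piece.flip_outs] at this
      simpa [FMV.flip] using this
  | zig i => left; exact .zag i
  | zag i => left; exact .zig i
  | slide₁ i => right; exact .slide₄ i
  | slide₂ i => right; exact .slide₃ i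
  | slide₃ i => right; exact .slide₂ i
  | slide₄ i => right; exact .slide₁ i
  | r1₁ i => left; exact .r1₃ i
  | r1₂ i => left; exact .r1₄ i
  | r1₃ i => left; exact .r1₁ i
  | r1₄ i => left; exact .r1₂ i
  | r2₁ i => left; exact .r2₂ i
  | r2₂ i => left; exact .r2₁ i
  | r3 i => left; exact .r3 i
  | four i => left; exact .four i

theorem FourEquiv.flip {n m : ℕ} {w w' : Word} (h : FourEquiv n m w w') :
    FourEquiv m n (FMV.flip w) (FMV.flip w') := by
  induction h with
  | refl w => exact .refl _
  | symm _ _ _ ih => exact ih.symm
  | trans _ _ _ _ _ ih₁ ih₂ => exact ih₁.trans ih₂
  | rel w w' h =>
      cases h with
      | mk a l r b h h₁ h₂ =>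
          have e₁ : FMV.flip (a ++ l ++ b) = FMV.flip b ++ FMV.flip l ++ FMV.flip a := by simp
          have e₂ : FMV.flip (a ++ r ++ b) = FMV.flip b ++ FMV.flip r ++ FMV.flip a := by simp
          have g₁ := run_flip h₁
          have g₂ := run_flip h₂
          rw [e₁] at g₁
          rw [e₂] at g₂
          rw [e₁, e₂]
          rcases h.flip with h | h
          · exact Relation.EqvGen.rel _ _ (Step.mk _ _ _ _ h g₁ g₂)
          · exact (Relation.EqvGen.rel _ _ (Step.mk _ _ _ _ h g₂ g₁)).symm

theorem swapAt_swapAt (i : ℕ) (s : List Bool) : swapAt i (swapAt i s) = s := by
  induction i generalizing s with
  | zero =>
      match s with
      | [] => rfl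
      | [x] => rfl
      | x :: y :: s => rfl
  | succ i ih =>
      cases s with
      | nil => rfl
      | cons x s => simp [ih]

theorem removePair_insertPair (c : Bool) {i : ℕ} {s : List Bool} (h : i ≤ s.length) :
    removePair i (insertPair c i s) = some s := by
  induction i generalizing s with
  | zero => simp
  | succ i ih =>
      cases s with
      | nil => simp at h
      | cons x s => simp at h; simp [ih h]

theorem insertPair_removePair {i : ℕ} {u s : List Bool} (h : removePair i u = some s) :
    insertPair false i s = u ∨ insertPair true i s = u := by
  induction i generalizing u s with
  | zero =>
      match u with
      | [] => simp [removePair] at h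
      | [x] => simp [removePair] at h
      | x :: y :: u =>
          simp only [removePair_zero] at h
          split at h
          · rename_i hxy
            simp only [Option.some.injEq] at h
            subst h
            subst hxy
            cases x <;> simp
          · simp at h
  | succ i ih =>
      cases u with
      | nil => simp [removePair] at h
      | cons x u =>
          simp only [removePair_succ, Option.map_eq_some_iff] at h
          obtain ⟨a, ha, rfl⟩ := h
          rcases ih ha with h | h <;> simp [h]

theorem insertPair_ne {i : ℕ} {s : List Bool} (h : i ≤ s.length) :
    insertPair false i s ≠ insertPair true i s := by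
  induction i generalizing s with
  | zero => simp
  | succ i ih =>
      cases s with
      | nil => simp at h
      | cons x s => simp at h; simp [ih h]

/-- The number of colourings of the diagram read from bottom to top. -/
theorem colorings_flip {n m : ℕ} {w : Word} (hw : run n w = some m) {s t : List Bool}
    (hs : s.length = n) (ht : t.length = m) : colorings (flip w) t s = colorings w s t := by
  induction w generalizing n s with
  | nil =>
      simp only [flip_nil, colorings, sumColorings_nil]
      by_cases h : t = s
      · rw [if_pos h, if_pos h.symm]
      · rw [if_neg h, if_neg (Ne.symm h)]
  | cons l w ih =>
      obtain ⟨k, i⟩ := l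
      simp only [run] at hw
      split at hw
      · rename_i hle
        rw [flip_cons, colorings_append]
        cases k
        · simp only [Piece.ins, Piece.outs] at hw hle
          have e : colorings (⟨Piece.pos, i⟩ :: w) s t = colorings w (swapAt i s) t := by
            simp [colorings]
          rw [e, ← ih hw (by rw [swapAt_length]; omega)]
          refine sumColorings_congr_fun _ (fun u => ?_) t
          simp only [colorings, Piece.flip, sumColorings_pos, sumColorings_nil]
          by_cases h : swapAt i u = s
          · rw [if_pos h, if_pos (by rw [← h, swapAt_swapAt])]
          · rw [if_neg h, if_neg (by rintro rfl; exact h (swapAt_swapAt i s))]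
        · simp only [Piece.ins, Piece.outs] at hw hle
          have e : colorings (⟨Piece.neg, i⟩ :: w) s t = colorings w (swapAt i s) t := by
            simp [colorings]
          rw [e, ← ih hw (by rw [swapAt_length]; omega)]
          refine sumColorings_congr_fun _ (fun u => ?_) t
          simp only [colorings, Piece.flip, sumColorings_neg, sumColorings_nil]
          by_cases h : swapAt i u = s
          · rw [if_pos h, if_pos (by rw [← h, swapAt_swapAt])]
          · rw [if_neg h, if_neg (by rintro rfl; exact h (swapAt_swapAt i s))]
        · simp only [Piece.ins, Piece.outs] at hw hle
          have hi : i ≤ s.length := by omega
          have e : colorings (⟨Piece.cup, i⟩ :: w) s t =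
              colorings w (insertPair false i s) t + colorings w (insertPair true i s) t := by
            simp [colorings]
          rw [e, ← ih hw (by rw [insertPair_length _ hi]; omega),
            ← ih hw (by rw [insertPair_length _ hi]; omega)]
          unfold colorings
          rw [← sumColorings_add]
          refine sumColorings_congr_fun _ (fun u => ?_) t
          simp only [Piece.flip, sumColorings_cap]
          cases hr : removePair i u with
          | none =>
              rw [if_neg (by rintro rfl; rw [removePair_insertPair _ hi] at hr; simp at hr),
                if_neg (by rintro rfl; rw [removePair_insertPair _ hi] at hr; simp at hr)]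
              rfl
          | some r =>
              simp only [Option.elim_some, sumColorings_nil]
              by_cases h : r = s
              · subst h
                rw [if_pos rfl]
                rcases insertPair_removePair hr with h | h
                · subst h
                  rw [if_pos rfl, if_neg (insertPair_ne hi)]
                · subst h
                  rw [if_pos rfl, if_neg (insertPair_ne hi).symm]
              · rw [if_neg h]
                rw [if_neg (by
                    rintro rfl
                    rw [removePair_insertPair _ hi] at hr
                    exact h (Option.some.inj hr).symm),
                  if_neg (by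
                    rintro rfl
                    rw [removePair_insertPair _ hi] at hr
                    exact h (Option.some.inj hr).symm)]
        · simp only [Piece.ins, Piece.outs] at hw hle
          have e : colorings (⟨Piece.cap, i⟩ :: w) s t =
              (removePair i s).elim 0 (fun r => colorings w r t) := by
            simp only [colorings, sumColorings_cap]
          rw [e]
          cases hr : removePair i s with
          | none =>
              simp only [Option.elim_none]
              rw [← sumColorings_zero (flip w) t]
              refine sumColorings_congr (run_flip hw) (fun u hu => ?_) ht
              simp only [colorings, Piece.flip, sumColorings_cup, sumColorings_nil]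
              have hi : i ≤ u.length := by omega
              rw [if_neg (by rintro rfl; rw [removePair_insertPair _ hi] at hr; simp at hr),
                if_neg (by rintro rfl; rw [removePair_insertPair _ hi] at hr; simp at hr)]
          | some r =>
              simp only [Option.elim_some]
              have hrl := removePair_length hr
              rw [← ih hw (by omega)]
              unfold colorings
              refine sumColorings_congr (run_flip hw) (fun u hu => ?_) ht
              simp only [Piece.flip, sumColorings_cup, sumColorings_nil]
              have hi : i ≤ u.length := by omega
              by_cases h : u = r
              · subst h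
                rw [if_pos rfl]
                rcases insertPair_removePair hr with h | h
                · rw [if_pos h, if_neg (by rw [← h]; exact (insertPair_ne hi).symm)]
                · rw [if_pos h, if_neg (by rw [← h]; exact insertPair_ne hi)]
              · rw [if_neg h]
                rw [if_neg (by
                    intro h2
                    rw [← h2, removePair_insertPair _ hi] at hr
                    exact h (Option.some.inj hr)),
                  if_neg (by
                    intro h2
                    rw [← h2, removePair_insertPair _ hi] at hr
                    exact h (Option.some.inj hr))]
      · simp at hw

end Pool.Agent.FMV
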