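import Pool.Agent.FMV.B3.Grp
import Pool.Agent.FMV.B3.Flip
import Pool.Agent.FMV.Rules
import Mathlib.GroupTheory.Congruence.Hom
import Mathlib.Algebra.FreeMonoid.Basic

/-!
Braid words.  The letter `x` on `q + 1` strings is a crossing at place `x / 2` modulo `q`,
positive for `x` even.
-/

namespace Pool.Agent.FMV.B3

/-- The crossing of a letter. -/
def cr (q x : ℕ) : Letter := ⟨if x % 2 = 0 then .pos else .neg, (x / 2) % q⟩

/-- The diagram of a word. -/
def bw (q : ℕ) (w : List ℕ) : Word := w.map (cr q)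

@[simp] theorem bw_nil (q : ℕ) : bw q [] = [] := rfl

@[simp] theorem bw_append (q : ℕ) (u v : List ℕ) : bw q (u ++ v) = bw q u ++ bw q v := by
  simp [bw]

theorem bw_cons (q x : ℕ) (w : List ℕ) : bw q (x :: w) = cr q x :: bw q w := rfl

theorem run_crossing {n : ℕ} {l : Letter} (hl : l.kind = .pos ∨ l.kind = .neg)
    (hp : l.place + 2 ≤ n) (w : Word) : run n (l :: w) = run n w := by
  obtain ⟨k, i⟩ := l
  simp only at hl hp
  rcases hl with rfl | rfl <;>
  · show (if i + 2 ≤ n then run (n - 2 + 2) w else none) = run n w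
    rw [if_pos hp, show n - 2 + 2 = n by omega]

theorem cr_kind (q x : ℕ) : (cr q x).kind = .pos ∨ (cr q x).kind = .neg := by
  unfold cr
  by_cases h : x % 2 = 0
  · left; simp [h]
  · right; simp [h]

theorem cr_place {q : ℕ} (hq : 0 < q) (x : ℕ) : (cr q x).place + 2 ≤ q + 1 := by
  have : (x / 2) % q < q := Nat.mod_lt _ hq
  show (x / 2) % q + 2 ≤ q + 1
  omega

theorem run_bw {q : ℕ} (hq : 0 < q) (w : List ℕ) : run (q + 1) (bw q w) = some (q + 1) := by
  induction w with
  | nil => rfl
  | cons x w ih => rw [bw_cons, run_crossing (cr_kind q x) (cr_place hq x), ih]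

/-! ### Crossing words -/

/-- Words in crossings on `n` strings. -/
def Br (n : ℕ) (β : Word) : Prop :=
  ∀ l ∈ β, (l.kind = .pos ∨ l.kind = .neg) ∧ l.place + 2 ≤ n

theorem Br.nil (n : ℕ) : Br n [] := fun l hl => by simp at hl

theorem Br.append {n : ℕ} {β γ : Word} (h : Br n β) (h' : Br n γ) : Br n (β ++ γ) := by
  intro l hl
  rcases List.mem_append.1 hl with hl | hl
  · exact h l hl
  · exact h' l hl

theorem Br.cons {n : ℕ} {l : Letter} {γ : Word} (h : (l.kind = .pos ∨ l.kind = .neg) ∧ l.place + 2 ≤ n)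
    (h' : Br n γ) : Br n (l :: γ) := by
  intro k hk
  rcases List.mem_cons.1 hk with rfl | hk
  · exact h
  · exact h' k hk

theorem Br.mono {n m : ℕ} (hnm : n ≤ m) {β : Word} (h : Br n β) : Br m β :=
  fun l hl => ⟨(h l hl).1, le_trans (h l hl).2 hnm⟩

theorem Br.run {n : ℕ} {β : Word} (h : Br n β) : FMV.run n β = some n := by
  induction β with
  | nil => rfl
  | cons l β ih =>
      rw [run_crossing (h l List.mem_cons_self).1 (h l List.mem_cons_self).2]
      exact ih fun k hk => h k (List.mem_cons_of_mem _ hk)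

theorem br_bw {q : ℕ} (hq : 0 < q) (w : List ℕ) : Br (q + 1) (bw q w) := by
  intro l hl
  simp only [bw, List.mem_map] at hl
  obtain ⟨x, -, rfl⟩ := hl
  exact ⟨cr_kind q x, cr_place hq x⟩

theorem Br.eq_bw {q : ℕ} {β : Word} (h : Br (q + 1) β) :
    ∃ w : List ℕ, (∀ x ∈ w, x < 2 * q) ∧ β = bw q w := by
  induction β with
  | nil => exact ⟨[], by simp, rfl⟩
  | cons l β ih =>
      obtain ⟨w, hw, e⟩ := ih fun k hk => h k (List.mem_cons_of_mem _ hk)
      obtain ⟨k, i⟩ := l
      obtain ⟨h1, h2⟩ := h ⟨k, i⟩ List.mem_cons_self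
      simp only at h1 h2
      have hi : i < q := by omega
      rcases h1 with rfl | rfl
      · refine ⟨2 * i :: w, ?_, ?_⟩
        · intro x hx
          rcases List.mem_cons.1 hx with rfl | hx
          · omega
          · exact hw x hx
        · rw [bw_cons, ← e, cr, show 2 * i / 2 = i by omega, Nat.mod_eq_of_lt hi, if_pos (by omega)]
      · refine ⟨(2 * i + 1) :: w, ?_, ?_⟩
        · intro x hx
          rcases List.mem_cons.1 hx with rfl | hx
          · omega
          · exact hw x hx
        · rw [bw_cons, ← e, cr, show (2 * i + 1) / 2 = i by omega, Nat.mod_eq_of_lt hi,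
            if_neg (by omega)]

theorem Br.flip {n : ℕ} {β : Word} (h : Br n β) : Br n (FMV.flip β) := by
  intro l hl
  simp only [FMV.flip, List.mem_reverse, List.mem_map] at hl
  obtain ⟨k, hk, rfl⟩ := hl
  obtain ⟨h1, h2⟩ := h k hk
  refine ⟨?_, h2⟩
  rcases h1 with h1 | h1
  · left; simp [h1, Piece.flip]
  · right; simp [h1, Piece.flip]

/-! ### Relations -/

theorem move_q {n : ℕ} {l r : Word} (h : Move l r) (h₁ : run n l = some n)
    (h₂ : run n r = some n) : FourEquiv n n l r := by
  have := Step.mk (n := n) (m := n) [] l r [] h (by simpa using h₁) (by simpa using h₂)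
  simp only [List.nil_append, List.append_nil] at this
  exact Relation.EqvGen.rel _ _ this

theorem bw_cancel {q : ℕ} (hq : 0 < q) (x : ℕ) (w : List ℕ) :
    FourEquiv (q + 1) (q + 1) (bw q (w ++ [2 * x, 2 * x + 1])) (bw q w) ∧
      FourEquiv (q + 1) (q + 1) (bw q (w ++ [2 * x + 1, 2 * x])) (bw q w) := by
  have hi : x % q < q := Nat.mod_lt _ hq
  have e1 : bw q [2 * x, 2 * x + 1] = [⟨.pos, x % q⟩, ⟨.neg, x % q⟩] := by
    simp only [bw, List.map_cons, List.map_nil, cr]
    rw [if_pos (by omega), if_neg (by omega), show 2 * x / 2 = x by omega,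
      show (2 * x + 1) / 2 = x by omega]
  have e2 : bw q [2 * x + 1, 2 * x] = [⟨.neg, x % q⟩, ⟨.pos, x % q⟩] := by
    simp only [bw, List.map_cons, List.map_nil, cr]
    rw [if_neg (by omega), if_pos (by omega), show 2 * x / 2 = x by omega,
      show (2 * x + 1) / 2 = x by omega]
  constructor
  · have h := move_q (n := q + 1) (Move.r2₁ (x % q)) (by rw [← e1]; exact run_bw hq _) rfl
    rw [bw_append, e1]
    have := h.append_left (run_bw hq w)
    simpa using this
  · have h := move_q (n := q + 1) (Move.r2₂ (x % q)) (by rw [← e2]; exact run_bw hq _) rfl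
    rw [bw_append, e2]
    have := h.append_left (run_bw hq w)
    simpa using this

end Pool.Agent.FMV.B3
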