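import Pool.Agent.FMV.Rules

/-!
Equivalences of small diagrams.
-/

namespace Pool.Agent.FMV.B3

theorem hil0 : FourEquiv 0 6 [⟨.cup, 0⟩, ⟨.cup, 2⟩, ⟨.cup, 4⟩, ⟨.pos, 0⟩]
    [⟨.cup, 0⟩, ⟨.cup, 2⟩, ⟨.cup, 4⟩] := cert 5 18889612309495946543104 (by decide)

theorem hil2 : FourEquiv 0 6 [⟨.cup, 0⟩, ⟨.cup, 2⟩, ⟨.cup, 4⟩, ⟨.pos, 2⟩]
    [⟨.cup, 0⟩, ⟨.cup, 2⟩, ⟨.cup, 4⟩] := cert 3 1117849387009 (by decide)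

theorem hil4 : FourEquiv 0 6 [⟨.cup, 0⟩, ⟨.cup, 2⟩, ⟨.cup, 4⟩, ⟨.pos, 4⟩]
    [⟨.cup, 0⟩, ⟨.cup, 2⟩, ⟨.cup, 4⟩] := cert 1 17026 (by decide)

theorem hilA : FourEquiv 0 6 [⟨.cup, 0⟩, ⟨.cup, 2⟩, ⟨.cup, 4⟩, ⟨.pos, 1⟩, ⟨.pos, 0⟩, ⟨.pos, 2⟩, ⟨.pos, 1⟩]
    [⟨.cup, 0⟩, ⟨.cup, 2⟩, ⟨.cup, 4⟩] := cert 7 329779916205123067229213292625920 (by decide)

theorem hilB : FourEquiv 0 6 [⟨.cup, 0⟩, ⟨.cup, 2⟩, ⟨.cup, 4⟩, ⟨.pos, 1⟩, ⟨.pos, 0⟩, ⟨.neg, 2⟩, ⟨.neg, 1⟩]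
    [⟨.cup, 0⟩, ⟨.cup, 2⟩, ⟨.cup, 4⟩] := cert 7 329777440343933962400142075232256 (by decide)

theorem hilC : FourEquiv 0 6 [⟨.cup, 0⟩, ⟨.cup, 2⟩, ⟨.cup, 4⟩, ⟨.pos, 3⟩, ⟨.pos, 2⟩, ⟨.pos, 4⟩, ⟨.pos, 3⟩]
    [⟨.cup, 0⟩, ⟨.cup, 2⟩, ⟨.cup, 4⟩] := cert 5 3873254499134569584001025 (by decide)

theorem hilD : FourEquiv 0 6 [⟨.cup, 0⟩, ⟨.cup, 2⟩, ⟨.cup, 4⟩, ⟨.pos, 3⟩, ⟨.pos, 2⟩, ⟨.neg, 4⟩, ⟨.neg, 3⟩]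
    [⟨.cup, 0⟩, ⟨.cup, 2⟩, ⟨.cup, 4⟩] := cert 5 3854365177318279079002113 (by decide)

theorem nu_cap : FourEquiv 0 4 [⟨.cup, 0⟩, ⟨.cup, 2⟩, ⟨.cup, 4⟩, ⟨.pos, 1⟩, ⟨.pos, 0⟩, ⟨.cap, 0⟩]
    [⟨.cup, 0⟩, ⟨.cup, 2⟩] := cert 6 7505182379673911507124486660 (by decide)

theorem h4a : FourEquiv 0 4 [⟨.cup, 0⟩, ⟨.cup, 2⟩, ⟨.pos, 0⟩]
    [⟨.cup, 0⟩, ⟨.cup, 2⟩] := cert 3 1099595644928 (by decide)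

theorem h4b : FourEquiv 0 4 [⟨.cup, 0⟩, ⟨.cup, 2⟩, ⟨.pos, 2⟩]
    [⟨.cup, 0⟩, ⟨.cup, 2⟩] := cert 1 8833 (by decide)

theorem h4c : FourEquiv 0 4 [⟨.cup, 0⟩, ⟨.cup, 2⟩, ⟨.pos, 1⟩, ⟨.pos, 0⟩, ⟨.pos, 2⟩, ⟨.pos, 1⟩]
    [⟨.cup, 0⟩, ⟨.cup, 2⟩] := cert 5 1455089262863502616428544 (by decide)

theorem h4d : FourEquiv 0 4 [⟨.cup, 0⟩, ⟨.cup, 2⟩, ⟨.pos, 1⟩, ⟨.pos, 0⟩, ⟨.neg, 2⟩, ⟨.neg, 1⟩]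
    [⟨.cup, 0⟩, ⟨.cup, 2⟩] := cert 5 1436199941047212111429632 (by decide)

theorem four1 : FourEquiv 0 2 [⟨.cup, 0⟩, ⟨.cup, 2⟩, ⟨.pos, 1⟩, ⟨.cap, 0⟩]
    [⟨.cup, 0⟩] := cert 4 434607294056103936 (by decide)

theorem four2 : FourEquiv 0 2 [⟨.cup, 0⟩, ⟨.cup, 2⟩, ⟨.pos, 1⟩, ⟨.pos, 2⟩, ⟨.cap, 0⟩]
    [⟨.cup, 0⟩] := cert 7 3245193002929610273315307011571712 (by decide)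

theorem four3 : FourEquiv 0 2 [⟨.cup, 0⟩, ⟨.cup, 2⟩, ⟨.pos, 1⟩, ⟨.pos, 2⟩, ⟨.pos, 2⟩, ⟨.cap, 0⟩]
    [⟨.cup, 0⟩] := cert 10 7307563938645781753831872953007921620039187431424 (by decide)

theorem four4 : FourEquiv 0 2 [⟨.cup, 0⟩, ⟨.cup, 2⟩, ⟨.pos, 1⟩, ⟨.pos, 2⟩, ⟨.pos, 2⟩, ⟨.pos, 2⟩, ⟨.cap, 0⟩]
    [⟨.cup, 0⟩] := cert 13 16455171116204580071882336071238971307631131790142362986265837568 (by decide)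

theorem close0 : FourEquiv 0 0 [⟨.cup, 0⟩, ⟨.cup, 2⟩, ⟨.cap, 2⟩, ⟨.cap, 0⟩]
    [⟨.cup, 0⟩, ⟨.cap, 0⟩, ⟨.cup, 0⟩, ⟨.cap, 0⟩] := cert 2 131072 (by decide)

theorem close2 : FourEquiv 0 0 [⟨.cup, 0⟩, ⟨.cup, 2⟩, ⟨.pos, 1⟩, ⟨.pos, 1⟩, ⟨.cap, 2⟩, ⟨.cap, 0⟩]
    [⟨.cup, 0⟩, ⟨.cup, 1⟩, ⟨.pos, 0⟩, ⟨.pos, 0⟩, ⟨.cap, 1⟩, ⟨.cap, 0⟩] := cert 10 5126673715177943227476041863515716056028423852481 (by decide)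

end Pool.Agent.FMV.B3
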