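import Pool.Agent.FMV.B3.Br
import Pool.Agent.FMV.B3.Cert

/-!
Two cups followed by a braid on four strings.
-/

namespace Pool.Agent.FMV.B3

/-- All entries with the given keys exist and are at most `N`. -/
def fullK (T N : ℕ) : List ℕ → Bool
  | [] => true
  | k :: ks => bif Nat.ble 1 (get T k) && Nat.ble (get T k) N then fullK T N ks else false

theorem fullK_sound {T N : ℕ} {ks : List ℕ} (h : fullK T N ks = true) :
    ∀ i ∈ ks, 1 ≤ get T i ∧ get T i ≤ N := by
  induction ks with
  | nil => simp
  | cons k ks ih =>
      simp only [fullK] at h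
      cases hc : (Nat.ble 1 (get T k) && Nat.ble (get T k) N) with
      | false => rw [hc] at h; simp at h
      | true =>
          rw [hc] at h
          simp only [cond_true] at h
          simp only [Bool.and_eq_true, Nat.ble_eq] at hc
          intro i hi
          rcases List.mem_cons.1 hi with rfl | hi
          · exact hc
          · exact ih h i hi

/-- Check: the table is complete with the nodes reached by the words `L`. -/
def checkFullK (R S L : List (List ℕ)) (m c : ℕ) (ks : List ℕ) : Bool :=
  match go R S m c 0 1 with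
  | some T => bif reach T L 0 then fullK T L.length ks else false
  | none => false

theorem checkFullK_sound {X : Type*} {F : ℕ → X → X} {p : X} {R S L : List (List ℕ)}
    (hG : Good F p R S) (hL : ∀ w ∈ L, ∀ x ∈ w, x < 10) (hL0 : 0 < L.length) {m c M : ℕ}
    {ks : List ℕ} (hM : M ≤ 10) (hk : ∀ i < L.length, ∀ x < M, 10 * i + x ∈ ks)
    (hd : checkFullK R S L m c ks = true)
    {w : List ℕ} (hw : ∀ x ∈ w, x < M) : ∃ v ∈ L, act F w p = act F v p := by
  unfold checkFullK at hd
  split at hd
  · rename_i T h1
    obtain ⟨n', env, h2⟩ := (ok_start F p).go hG h1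
    cases hr : reach T L 0 with
    | false => rw [hr] at hd; simp at hd
    | true =>
        rw [hr] at hd
        simp only [cond_true] at hd
        have hf := fullK_sound hd
        have key : ∀ w : List ℕ, (∀ x ∈ w, x < M) → ∀ i < L.length,
            ∃ j < L.length, act F w (env i) = env j := by
          intro w hw
          induction w with
          | nil => intro i hi; exact ⟨i, hi, rfl⟩
          | cons x w ih =>
              intro i hi
              have hx := hw x List.mem_cons_self
              obtain ⟨g1, g2⟩ := hf (10 * i + x) (hk i hi x hx)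
              obtain ⟨k, hk⟩ : ∃ k, get T (10 * i + x) = k + 1 :=
                ⟨get T (10 * i + x) - 1, by omega⟩
              obtain ⟨-, -, h5⟩ := h2.edge i x k (by omega) hk
              obtain ⟨j, hj, h6⟩ := ih (fun y hy => hw y (List.mem_cons_of_mem _ hy)) k (by omega)
              refine ⟨j, hj, ?_⟩
              show act F w (F x (env i)) = env j
              rw [h5, h6]
        obtain ⟨j, hj, h6⟩ := key w hw 0 hL0
        have h7 := reach_sound h2 hL hr j hj
        rw [Nat.zero_add] at h7
        refine ⟨L.getD j [], ?_, ?_⟩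
        · rw [List.getD_eq_getElem _ _ hj]
          exact List.getElem_mem _
        · rw [h7, ← h6, h2.zero]
  · simp at hd

/-! ### The space of diagrams -/

/-- Two cups. -/
def cups2 : Word := [⟨.cup, 0⟩, ⟨.cup, 2⟩]

theorem run_cups2 : run 0 cups2 = some 4 := rfl

/-- Diagrams with two cups up to equivalence. -/
def set4 : Setoid (List ℕ) where
  r w w' := FourEquiv 0 4 (cups2 ++ bw 3 w) (cups2 ++ bw 3 w')
  iseqv := ⟨fun _ => .refl _, .symm, .trans⟩

/-- A crossing added at the bottom. -/
def F4 (x : ℕ) : Quotient set4 → Quotient set4 :=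
  Quotient.map (fun w => w ++ [x]) (by
    intro w w' h
    show FourEquiv 0 4 (cups2 ++ bw 3 (w ++ [x])) (cups2 ++ bw 3 (w' ++ [x]))
    rw [bw_append, bw_append, ← List.append_assoc, ← List.append_assoc]
    exact FourEquiv.append_right h (run_bw (q := 3) (by norm_num) [x]))

theorem act_F4 (w u : List ℕ) :
    act F4 w (Quotient.mk set4 u) = Quotient.mk set4 (u ++ w) := by
  induction w generalizing u with
  | nil => simp [act]
  | cons x w ih =>
      show act F4 w (Quotient.mk set4 (u ++ [x])) = _
      rw [ih]
      simp

theorem F4_closed {w : List ℕ} (h : FourEquiv 4 4 (bw 3 w) []) (q : Quotient set4) :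
    act F4 w q = q := by
  induction q using Quotient.inductionOn with
  | _ u =>
      rw [act_F4]
      apply Quotient.sound
      show FourEquiv 0 4 (cups2 ++ bw 3 (u ++ w)) (cups2 ++ bw 3 u)
      have h1 := h.append_left (run_append_of run_cups2 (run_bw (q := 3) (by norm_num) u))
      simpa using h1

/-- The closed words on four strings. -/
def rules4 : List (List ℕ) :=
  [[0, 0, 0, 0], [2, 2, 2, 2], [4, 4, 4, 4], [0, 2, 0, 3, 1, 3], [2, 0, 3, 1, 3, 0],
   [0, 3, 1, 3, 0, 2], [3, 1, 3, 0, 2, 0], [1, 3, 0, 2, 0, 3], [3, 0, 2, 0, 3, 1],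
   [2, 4, 2, 5, 3, 5], [4, 2, 5, 3, 5, 2], [2, 5, 3, 5, 2, 4], [5, 3, 5, 2, 4, 2],
   [3, 5, 2, 4, 2, 5], [5, 2, 4, 2, 5, 3], [0, 4, 1, 5], [4, 1, 5, 0], [1, 5, 0, 4],
   [5, 0, 4, 1]]

theorem rules4_closed : ∀ w ∈ rules4, FourEquiv 4 4 (bw 3 w) [] := by
  intro w hw
  simp only [rules4, List.mem_cons, List.not_mem_nil, or_false] at hw
  rcases hw with rfl | rfl | rfl | rfl | rfl | rfl | rfl | rfl | rfl | rfl | rfl | rfl | rfl |
    rfl | rfl | rfl | rfl | rfl | rfl
  · exact cert 3 14293760345344 (by decide)
  · exact cert 3 84663041398016 (by decide)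
  · exact cert 3 155032322450688 (by decide)
  · exact cert 4 10952767505722246016 (by decide)
  · exact cert 4 1873581025150698560 (by decide)
  · exact cert 4 11096883793309729920 (by decide)
  · exact cert 4 1873582124670714816 (by decide)
  · exact cert 4 10952768605242262720 (by decide)
  · exact cert 4 1729465837083231232 (by decide)
  · exact cert 4 20176209911858074496 (by decide)
  · exact cert 4 11097023431286527040 (by decide)
  · exact cert 4 20320326199445558400 (by decide)
  · exact cert 4 11097024530806543296 (by decide)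
  · exact cert 4 20176211011378091200 (by decide)
  · exact cert 4 10952908243219059712 (by decide)
  · exact cert 3 153931728683008 (by decide)
  · exact cert 3 14294825697344 (by decide)
  · exact cert 3 155031248699392 (by decide)
  · exact cert 3 13195322458176 (by decide)

/-- The generators of the stabiliser of two cups. -/
def hilden4 : List (List ℕ) := [[0], [4], [2, 0, 4, 2], [2, 0, 5, 3]]

/-- Representatives. -/
def reps4 : List (List ℕ) := [[], [2], [2, 4], [2, 4, 4], [2, 4, 4, 4], [2, 2]]

theorem check4 : checkFullK rules4 hilden4 reps4 18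
    0x52d003050033d0043d0051900415004010004800044002490008e000ca000900021d00040000080000600002
    ((List.range 6).flatMap fun i => (List.range 6).map fun x => 10 * i + x) = true := by
  decide +kernel

theorem good4 : Good F4 (Quotient.mk set4 []) rules4 hilden4 where
  inv := by
    intro x hx q
    have h : FourEquiv 4 4 (bw 3 [x, inv x]) [] := by
      have h1 := (bw_cancel (q := 3) (by norm_num) (x / 2) [])
      rw [bw_nil, List.nil_append, List.nil_append] at h1
      rcases Nat.even_or_odd' x with ⟨i, rfl | rfl⟩
      · have e : inv (2 * i) = 2 * i + 1 := by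
          have : i < 5 := by omega
          interval_cases i <;> rfl
        rw [e]
        rw [show 2 * i / 2 = i by omega] at h1
        exact h1.1
      · have e : inv (2 * i + 1) = 2 * i := by
          have : i < 5 := by omega
          interval_cases i <;> rfl
        rw [e]
        rw [show (2 * i + 1) / 2 = i by omega] at h1
        exact h1.2
    exact F4_closed h q
  rlt := by decide +kernel
  slt := by decide +kernel
  rel := fun w hw q => F4_closed (rules4_closed w hw) q
  sub := by
    intro w hw
    rw [act_F4]
    apply Quotient.sound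
    show FourEquiv 0 4 (cups2 ++ bw 3 ([] ++ w)) (cups2 ++ bw 3 [])
    simp only [hilden4, List.mem_cons, List.not_mem_nil, or_false] at hw
    rcases hw with rfl | rfl | rfl | rfl
    · exact h4a
    · exact h4b
    · exact h4c
    · exact h4d

/-- The six diagrams. -/
theorem four_cases {β : Word} (hβ : Br 4 β) :
    ∃ v ∈ reps4, FourEquiv 0 4 (cups2 ++ β) (cups2 ++ bw 3 v) := by
  obtain ⟨w, hw, rfl⟩ := Br.eq_bw (q := 3) hβ
  obtain ⟨v, hv, e⟩ := checkFullK_sound good4 (L := reps4) (by decide) (by decide) (M := 6)
    (by norm_num) (by decide +kernel) check4 (w := w) (by simpa using hw)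
  rw [act_F4, act_F4] at e
  exact ⟨v, hv, Quotient.exact e⟩

/-- One cup can be split off. -/
theorem four_cap {β : Word} (hβ : Br 4 β)
    (hc : colorings (cups2 ++ β ++ [⟨.cap, 0⟩]) [] [false, false] = 1) :
    FourEquiv 0 2 (cups2 ++ β ++ [⟨.cap, 0⟩]) [⟨.cup, 0⟩] := by
  obtain ⟨v, hv, e⟩ := four_cases hβ
  have e1 := e.append_right (q := 2) (b := [⟨.cap, 0⟩]) rfl
  rw [e1.colorings_eq rfl] at hc
  refine e1.trans ?_
  simp only [reps4, List.mem_cons, List.not_mem_nil, or_false] at hv
  rcases hv with rfl | rfl | rfl | rfl | rfl | rfl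
  · exact absurd hc (by decide)
  · exact four1
  · exact four2
  · exact four3
  · exact four4
  · exact absurd hc (by decide)

/-- Links with two cups and two caps. -/
theorem four_close {β : Word} (hβ : Br 4 β)
    (hc : colorings (cups2 ++ β ++ [⟨.cap, 2⟩, ⟨.cap, 0⟩]) [] [] = 4) :
    FourEquiv 0 0 (cups2 ++ β ++ [⟨.cap, 2⟩, ⟨.cap, 0⟩]) unlink ∨
      FourEquiv 0 0 (cups2 ++ β ++ [⟨.cap, 2⟩, ⟨.cap, 0⟩]) hopf := by
  obtain ⟨v, hv, e⟩ := four_cases hβ
  have e1 := e.append_right (q := 0) (b := [⟨.cap, 2⟩, ⟨.cap, 0⟩]) rfl
  rw [e1.colorings_eq rfl] at hc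
  simp only [reps4, List.mem_cons, List.not_mem_nil, or_false] at hv
  rcases hv with rfl | rfl | rfl | rfl | rfl | rfl
  · left; exact e1.trans close0
  · exact absurd hc (by decide)
  · exact absurd hc (by decide)
  · exact absurd hc (by decide)
  · exact absurd hc (by decide)
  · right; exact e1.trans close2

end Pool.Agent.FMV.B3
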