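import Pool.Agent.FMV.B3.Data
import Pool.Agent.FMV.DC0
import Mathlib.Algebra.Group.Subgroup.Pointwise
import Mathlib.GroupTheory.Coset.Basic

/-!
The coset enumerations in a group with the relations of the braid group on six strings and
fourth powers trivial.
-/

namespace Pool.Agent.FMV.B3

/-- The relations. -/
structure Rel {G : Type*} [Group G] (s : ℕ → G) : Prop where
  four : ∀ i < 5, s i ^ 4 = 1
  braid : ∀ i < 4, s i * s (i + 1) * s i = s (i + 1) * s i * s (i + 1)
  comm : ∀ i j, i + 2 ≤ j → j < 5 → s i * s j = s j * s i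

section Group

variable {G : Type*} [Group G] (s : ℕ → G)

/-- The value of a letter. -/
def lv (x : ℕ) : G := if x % 2 = 0 then s (x / 2) else (s (x / 2))⁻¹

/-- The value of a word. -/
def ev (w : List ℕ) : G := (w.map (lv s)).prod

theorem ev_nil : ev s [] = 1 := rfl

theorem ev_cons (x : ℕ) (w : List ℕ) : ev s (x :: w) = lv s x * ev s w := by
  simp [ev]

theorem ev_append (u v : List ℕ) : ev s (u ++ v) = ev s u * ev s v := by
  simp [ev]

theorem lv_inv {x : ℕ} (hx : x < 10) : lv s (inv x) = (lv s x)⁻¹ := by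
  unfold lv inv
  interval_cases x <;> simp <;> rfl

theorem ev_invW {w : List ℕ} (hw : ∀ x ∈ w, x < 10) : ev s (invW w) = (ev s w)⁻¹ := by
  induction w with
  | nil => simp [invW, ev_nil]
  | cons x w ih =>
      have e : invW (x :: w) = invW w ++ [inv x] := by simp [invW]
      rw [e, ev_append, ih (fun y hy => hw y (List.mem_cons_of_mem _ hy)), ev_cons, ev_cons, ev_nil,
        lv_inv s (hw x List.mem_cons_self), mul_one, mul_inv_rev]

/-- Right multiplication of sets. -/
def rm (x : ℕ) (S : Set G) : Set G := (fun g => g * lv s x) '' S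

theorem act_rm (w : List ℕ) (S : Set G) : act (rm s) w S = (fun g => g * ev s w) '' S := by
  induction w generalizing S with
  | nil => simp [act, ev_nil]
  | cons x w ih =>
      show act (rm s) w (rm s x S) = _
      rw [ih, rm, Set.image_image]
      simp only [ev_cons, mul_assoc]

theorem rm_inv : Inv (rm s) := by
  intro x hx S
  unfold rm
  rw [Set.image_image]
  simp [lv_inv s hx]

/-- The relators up to rotation. -/
def base : List (List ℕ) :=
  [[0, 0, 0, 0], [2, 2, 2, 2], [4, 4, 4, 4], [6, 6, 6, 6], [8, 8, 8, 8],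
   [0, 2, 0, 3, 1, 3], [2, 4, 2, 5, 3, 5], [4, 6, 4, 7, 5, 7], [6, 8, 6, 9, 7, 9],
   [0, 4, 1, 5], [0, 6, 1, 7], [0, 8, 1, 9], [2, 6, 3, 7], [2, 8, 3, 9], [4, 8, 5, 9]]

theorem rules_base : ∀ w ∈ rules, ∃ v ∈ base, ∃ k < 6, w = v.drop k ++ v.take k := by
  decide +kernel

variable {s}

theorem braid_word {a b : G} (h : a * b * a = b * a * b) : a * (b * (a * (b⁻¹ * (a⁻¹ * b⁻¹)))) = 1 := by
  have e : a * (b * (a * (b⁻¹ * (a⁻¹ * b⁻¹)))) = (a * b * a) * (b * a * b)⁻¹ := by
    simp only [mul_inv_rev, mul_assoc]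
  rw [e, h, mul_inv_cancel]

theorem comm_word {a b : G} (h : a * b = b * a) : a * (b * (a⁻¹ * b⁻¹)) = 1 := by
  have e : a * (b * (a⁻¹ * b⁻¹)) = (a * b) * (b * a)⁻¹ := by
    simp only [mul_inv_rev, mul_assoc]
  rw [e, h, mul_inv_cancel]

theorem four_word {a : G} (h : a ^ 4 = 1) : a * (a * (a * a)) = 1 := by
  rw [← h]
  simp only [pow_succ, pow_zero, one_mul, mul_assoc]

theorem ev_base (h : Rel s) : ∀ v ∈ base, ev s v = 1 := by
  intro v hv
  simp only [base, List.mem_cons, List.not_mem_nil, or_false] at hv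
  rcases hv with rfl | rfl | rfl | rfl | rfl | rfl | rfl | rfl | rfl | rfl | rfl | rfl | rfl |
    rfl | rfl <;> simp only [ev_cons, ev_nil, mul_one, lv]
  · exact four_word (h.four 0 (by norm_num))
  · exact four_word (h.four 1 (by norm_num))
  · exact four_word (h.four 2 (by norm_num))
  · exact four_word (h.four 3 (by norm_num))
  · exact four_word (h.four 4 (by norm_num))
  · exact braid_word (h.braid 0 (by norm_num))
  · exact braid_word (h.braid 1 (by norm_num))
  · exact braid_word (h.braid 2 (by norm_num))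
  · exact braid_word (h.braid 3 (by norm_num))
  · exact comm_word (h.comm 0 2 (by norm_num) (by norm_num))
  · exact comm_word (h.comm 0 3 (by norm_num) (by norm_num))
  · exact comm_word (h.comm 0 4 (by norm_num) (by norm_num))
  · exact comm_word (h.comm 1 3 (by norm_num) (by norm_num))
  · exact comm_word (h.comm 1 4 (by norm_num) (by norm_num))
  · exact comm_word (h.comm 2 4 (by norm_num) (by norm_num))

theorem ev_rules (h : Rel s) : ∀ w ∈ rules, ev s w = 1 := by
  intro w hw
  obtain ⟨v, hv, k, -, rfl⟩ := rules_base w hw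
  have h1 := ev_base h v hv
  rw [← List.take_append_drop k v, ev_append] at h1
  rw [ev_append]
  exact mul_eq_one_comm.1 h1

theorem rules_lt : ∀ w ∈ rules, ∀ x ∈ w, x < 10 := by decide +kernel

theorem act_rules (h : Rel s) : ∀ w ∈ rules, ∀ q, act (rm s) w q = q := by
  intro w hw q
  rw [act_rm, ev_rules h w hw]
  simp

theorem act_sub {K : Subgroup G} {w : List ℕ} : act (rm s) w (K : Set G) = K ↔ ev s w ∈ K := by
  rw [act_rm]
  constructor
  · intro h
    have h1 : (1 : G) * ev s w ∈ (fun g => g * ev s w) '' (K : Set G) := ⟨1, K.one_mem, rfl⟩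
    rw [h, one_mul] at h1
    exact h1
  · intro h
    ext g
    simp only [Set.mem_image, SetLike.mem_coe]
    constructor
    · rintro ⟨k, hk, rfl⟩
      exact K.mul_mem hk h
    · intro hg
      exact ⟨g * (ev s w)⁻¹, K.mul_mem hg (K.inv_mem h), by simp⟩

theorem good_rm (h : Rel s) {K : Subgroup G} {S : List (List ℕ)} (hS : ∀ w ∈ S, ∀ x ∈ w, x < 10)
    (hK : ∀ w ∈ S, ev s w ∈ K) : Good (rm s) (K : Set G) rules S :=
  ⟨rm_inv s, rules_lt, hS, act_rules h, fun w hw => act_sub.2 (hK w hw)⟩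

/-- The subgroup generated by words. -/
def cl (s : ℕ → G) (S : List (List ℕ)) : Subgroup G := Subgroup.closure {g | ∃ w ∈ S, g = ev s w}

theorem mem_cl {S : List (List ℕ)} {w : List ℕ} (hw : w ∈ S) : ev s w ∈ cl s S :=
  Subgroup.subset_closure ⟨w, hw, rfl⟩

theorem cl_le {S : List (List ℕ)} {K : Subgroup G} (h : ∀ w ∈ S, ev s w ∈ K) : cl s S ≤ K := by
  rw [cl, Subgroup.closure_le]
  rintro _ ⟨w, hw, rfl⟩
  exact h w hw

/-- `n L n⁻¹` stabilises the cups. -/
theorem conj_A (h : Rel s) (A : Subgroup G) (hA : ∀ w ∈ hilden, ev s w ∈ A) {l : G}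
    (hl : l ∈ cl s lgen) : ev s [2, 0] * l * (ev s [2, 0])⁻¹ ∈ A := by
  have hK : cl s hilden ≤ A := cl_le hA
  have h1 := check_sound (good_rm h (K := cl s hilden) (by decide +kernel) fun w hw => mem_cl hw)
    (C := goalA) (by decide +kernel) checkA
  have h2 : ∀ w ∈ lgen, ∃ v ∈ goalA, v = [2, 0] ++ w ++ invW [2, 0] := by decide +kernel
  have h3 : cl s lgen ≤ A.comap (MulAut.conj (ev s [2, 0])).toMonoidHom := by
    refine cl_le fun w hw => ?_
    obtain ⟨v, hv, e⟩ := h2 w hw
    have h4 := act_sub.1 (h1 v hv)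
    rw [e, ev_append, ev_append, ev_invW s (by decide)] at h4
    rw [Subgroup.mem_comap]
    exact hK h4
  exact h3 hl

/-- A generator of `W` normalises `L`. -/
theorem conj_gen (h : Rel s) {w : List ℕ} (hw : w ∈ wgen) {l : G} (hl : l ∈ cl s lgen) :
    ev s w * l * (ev s w)⁻¹ ∈ cl s lgen := by
  have h1 := check_sound (good_rm h (K := cl s lgen) (by decide +kernel) fun w hw => mem_cl hw)
    (C := goalB) (by decide +kernel) checkB
  have h2 : ∀ w ∈ wgen, ∀ u ∈ lgen, ∃ v ∈ goalB, v = w ++ u ++ invW w := by decide +kernel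
  have h3 : cl s lgen ≤ (cl s lgen).comap (MulAut.conj (ev s w)).toMonoidHom := by
    refine cl_le fun u hu => ?_
    obtain ⟨v, hv, e⟩ := h2 w hw u hu
    have h4 := act_sub.1 (h1 v hv)
    have hw10 : ∀ w ∈ wgen, ∀ x ∈ w, x < 10 := by decide +kernel
    rw [e, ev_append, ev_append, ev_invW s (hw10 w hw)] at h4
    rw [Subgroup.mem_comap]
    exact h4
  exact h3 hl

theorem y_four (h : Rel s) : (ev s [6, 4, 4, 6]) ^ 4 = 1 := by
  have h1 := y_pow (h.braid 2 (by norm_num)).symm (h.four 3 (by norm_num)) (h.four 2 (by norm_num))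
  rw [← h1]
  congr 1
  simp only [ev_cons, ev_nil, mul_one, lv, pow_two, mul_assoc]
  rfl

theorem gen_four (h : Rel s) : ∀ w ∈ wgen, ev s w ^ 4 = 1 := by
  intro w hw
  simp only [wgen, List.mem_cons, List.not_mem_nil, or_false] at hw
  rcases hw with rfl | rfl | rfl
  · rw [ev_cons, ev_nil, mul_one]
    exact h.four 4 (by norm_num)
  · have e : ev s [6, 4, 4, 6, 6, 4, 4, 6] = ev s [6, 4, 4, 6] ^ 2 := by
      rw [pow_two, ← ev_append]
      rfl
    rw [e, ← pow_mul, Nat.mul_comm, pow_mul, y_four h, one_pow]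
  · have e : ev s [6, 4, 4, 6, 8, 7, 5, 5, 7] =
        ev s [6, 4, 4, 6] * ev s [8] * (ev s [6, 4, 4, 6])⁻¹ := by
      rw [← ev_invW s (by decide), ← ev_append, ← ev_append]
      rfl
    have h4 : ev s [8] ^ 4 = 1 := by
      rw [ev_cons, ev_nil, mul_one]
      exact h.four 4 (by norm_num)
    rw [e, conj_pow, h4, mul_one, mul_inv_cancel]

/-- Every element of `W` normalises `L`. -/
theorem conj_W (h : Rel s) {g l : G} (hg : g ∈ cl s wgen) (hl : l ∈ cl s lgen) :
    g * l * g⁻¹ ∈ cl s lgen := by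
  have key : ∀ g ∈ cl s wgen, (∀ l ∈ cl s lgen, g * l * g⁻¹ ∈ cl s lgen) ∧
      (∀ l ∈ cl s lgen, g⁻¹ * l * g ∈ cl s lgen) := by
    intro g hg
    induction hg using Subgroup.closure_induction with
    | mem g hg =>
        obtain ⟨w, hw, rfl⟩ := hg
        refine ⟨fun l hl => conj_gen h hw hl, fun l hl => ?_⟩
        have e : (ev s w)⁻¹ = ev s w * ev s w * ev s w := by
          rw [inv_eq_iff_mul_eq_one, ← gen_four h w hw]
          simp only [pow_succ, pow_zero, one_mul, mul_assoc]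
        have e5 : (ev s w * ev s w * ev s w)⁻¹ = ev s w := by rw [← e, _root_.inv_inv]
        have e3 : (ev s w)⁻¹ * l * ev s w =
            ev s w * (ev s w * (ev s w * l * (ev s w)⁻¹) * (ev s w)⁻¹) * (ev s w)⁻¹ := by
          calc (ev s w)⁻¹ * l * ev s w
              = (ev s w * ev s w * ev s w) * l * (ev s w * ev s w * ev s w)⁻¹ := by rw [e5, e]
            _ = _ := by simp only [mul_inv_rev, mul_assoc]
        rw [e3]
        exact conj_gen h hw (conj_gen h hw (conj_gen h hw hl))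
    | one => exact ⟨fun l hl => by simpa using hl, fun l hl => by simpa using hl⟩
    | mul a b _ _ iha ihb =>
        refine ⟨fun l hl => ?_, fun l hl => ?_⟩
        · have e : a * b * l * (a * b)⁻¹ = a * (b * l * b⁻¹) * a⁻¹ := by
            simp only [mul_inv_rev, mul_assoc]
          rw [e]
          exact iha.1 _ (ihb.1 _ hl)
        · have e : (a * b)⁻¹ * l * (a * b) = b⁻¹ * (a⁻¹ * l * a) * b := by
            simp only [mul_inv_rev, mul_assoc]
          rw [e]
          exact ihb.2 _ (iha.2 _ hl)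
    | inv a _ iha =>
        refine ⟨fun l hl => ?_, fun l hl => ?_⟩
        · simpa using iha.2 l hl
        · simpa using iha.1 l hl
  exact (key g hg).1 l hl

/-- The subgroup generated by `L` and `W` is `L W`. -/
theorem cl_LW (h : Rel s) {g : G} (hg : g ∈ cl s (lgen ++ wgen)) :
    ∃ l ∈ cl s lgen, ∃ w ∈ cl s wgen, g = l * w := by
  induction hg using Subgroup.closure_induction with
  | mem g hg =>
      obtain ⟨w, hw, rfl⟩ := hg
      rcases List.mem_append.1 hw with hw | hw
      · exact ⟨_, mem_cl hw, 1, one_mem _, (mul_one _).symm⟩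
      · exact ⟨1, one_mem _, _, mem_cl hw, (one_mul _).symm⟩
  | one => exact ⟨1, one_mem _, 1, one_mem _, (one_mul _).symm⟩
  | mul a b _ _ iha ihb =>
      obtain ⟨l, hl, w, hw, rfl⟩ := iha
      obtain ⟨l', hl', w', hw', rfl⟩ := ihb
      refine ⟨l * (w * l' * w⁻¹), mul_mem hl (conj_W h hw hl'), w * w', mul_mem hw hw', ?_⟩
      group
  | inv a _ iha =>
      obtain ⟨l, hl, w, hw, rfl⟩ := iha
      refine ⟨w⁻¹ * l⁻¹ * (w⁻¹)⁻¹, conj_W h (inv_mem hw) (inv_mem hl), w⁻¹, inv_mem hw, ?_⟩
      group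

/-- **The decomposition.** -/
theorem decomp (h : Rel s) (A : Subgroup G) (hA : ∀ w ∈ hilden, ev s w ∈ A) {w : List ℕ}
    (hw : ∀ x ∈ w, x < 10) :
    ∃ a ∈ A, ∃ u ∈ cl s wgen, ∃ v ∈ reps, ev s w = a * ev s [2, 0] * u * ev s v := by
  have h1 : ∀ x ∈ invW [2, 0] ++ w, x < 10 := by
    intro x hx
    rcases List.mem_append.1 hx with hx | hx
    · exact invW_lt (by decide) x hx
    · exact hw x hx
  obtain ⟨v, hv, e⟩ := checkFull_sound (good_rm h (K := cl s (lgen ++ wgen)) (by decide +kernel)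
    fun w hw => mem_cl hw) (L := reps) (by decide +kernel) (by decide +kernel) checkC h1
  rw [act_rm, act_rm] at e
  have h2 : (1 : G) * ev s (invW [2, 0] ++ w) ∈
      (fun g => g * ev s (invW [2, 0] ++ w)) '' (cl s (lgen ++ wgen) : Set G) := ⟨1, one_mem _, rfl⟩
  rw [e] at h2
  obtain ⟨k, hk, e2⟩ := h2
  simp only [one_mul] at e2
  obtain ⟨l, hl, u, hu, rfl⟩ := cl_LW h hk
  refine ⟨_, conj_A h A hA hl, u, hu, v, hv, ?_⟩
  rw [ev_append, ev_invW s (by decide)] at e2
  have e3 : ev s w = ev s [2, 0] * (l * u * ev s v) := by rw [e2]; group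
  rw [e3]
  group

end Group

end Pool.Agent.FMV.B3
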