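import Pool.Agent.FMV.B3.Top

/-!
Knots and two-component links with at most six strings at every level.
-/

namespace Pool.Agent.FMV.B3

theorem replicate_map_not (n : ℕ) :
    (List.replicate n false).map (!·) = List.replicate n true := by
  simp

theorem colorings_true {w : Word} (n m : ℕ) :
    colorings w (List.replicate n true) (List.replicate m true) =
      colorings w (List.replicate n false) (List.replicate m false) := by
  rw [← replicate_map_not, ← replicate_map_not, colorings_not]

/-- The count of colourings if a component is closed below the top level of other strings. -/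
theorem count_ge {b s : Word} {n : ℕ} (hn : 1 ≤ n) :
    2 * (colorings b [] (List.replicate n false) * colorings s (List.replicate n false) []) ≤
      colorings (b ++ s) [] [] := by
  have hne : List.replicate n false ≠ List.replicate n true := by
    intro h
    obtain ⟨k, rfl⟩ : ∃ k, n = k + 1 := ⟨n - 1, by omega⟩
    rw [List.replicate_succ, List.replicate_succ] at h
    simpa using (List.cons.inj h).1
  have h1 := add_le_sumColorings b (fun u => colorings s u []) [] _ _ hne
  rw [← colorings_append] at h1
  have h2 : colorings b [] (List.replicate n true) = colorings b [] (List.replicate n false) :=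
    colorings_true 0 n
  have h3 : colorings s (List.replicate n true) [] = colorings s (List.replicate n false) [] :=
    colorings_true n 0
  rw [h2, h3] at h1
  omega

/-- Only the empty diagram has no component. -/
theorem empty_of {s : Word} (hs : run 0 s = some 0) (hc : colorings s [] [] = 1) : s = [] := by
  cases s with
  | nil => rfl
  | cons l s =>
      exfalso
      obtain ⟨a, i⟩ := l
      simp only [run] at hs
      split at hs
      · rename_i hl
        cases a
        · simp only [Piece.ins] at hl; omega
        · simp only [Piece.ins] at hl; omega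
        · simp only [Piece.ins, Piece.outs] at hl hs
          obtain rfl : i = 0 := by omega
          have h1 := one_le_colorings hs false
          have h2 := one_le_colorings hs true
          have e : colorings (⟨Piece.cup, 0⟩ :: s) [] [] =
              colorings s [false, false] [] + colorings s [true, true] [] := by
            simp [colorings]
          rw [e] at hc
          have h1' : 1 ≤ colorings s [false, false] [] := h1
          have h2' : 1 ≤ colorings s [true, true] [] := h2
          omega
        · simp only [Piece.ins] at hl; omega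
      · simp at hs

/-- A component which is closed when there are only two strings. -/
theorem split_circle {a s : Word} {i : ℕ} {β : Word} (hi : i + 2 ≤ 2)
    (hβ : Br 2 β) (e : FourEquiv 0 2 a (cupsW 1 ++ β)) (hs : run 0 s = some 0) :
    FourEquiv 0 0 (a ++ ⟨.cap, i⟩ :: s) ([⟨.cup, 0⟩, ⟨.cap, 0⟩] ++ s) ∧
      colorings (a ++ ⟨.cap, i⟩ :: s) [] [] = 2 * colorings s [] [] := by
  obtain rfl : i = 0 := by omega
  have hr : run 2 (⟨.cap, 0⟩ :: s) = some 0 := by
    rw [rcap (by norm_num)]
    exact hs
  have e1 : FourEquiv 0 0 (a ++ ⟨.cap, 0⟩ :: s) ([⟨.cup, 0⟩] ++ ⟨.cap, 0⟩ :: s) :=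
    (e.trans (one_cup hβ)).append_right hr
  refine ⟨e1, ?_⟩
  rw [e1.colorings_eq rfl]
  have : colorings ([⟨.cup, 0⟩] ++ ⟨.cap, 0⟩ :: s) [] [] = colorings s [] [] + colorings s [] [] := by
    simp [colorings]
  omega

/-- **Knots.** -/
theorem knot {w : Word} (hw : run 0 w = some 0) (hn : Narrow 0 w) (hc : colorings w [] [] = 2) :
    FourEquiv 0 0 w [⟨.cup, 0⟩, ⟨.cap, 0⟩] := by
  rcases top w 0 hw hn with ⟨h, -⟩ | ⟨a, i, s, j, rfl, h1, h2, ⟨β, hβ, e⟩, h3⟩
  · exfalso
    have h' : colorings w [] [] = 1 := h
    omega
  · have hr : run (2 * j) (⟨.cap, i⟩ :: s) = some 0 := by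
      obtain ⟨k, hk, hk'⟩ := run_append_some hw
      rw [h1] at hk
      obtain rfl := Option.some.inj hk
      exact hk'
    have hs : run (2 * j - 2) s = some 0 := by
      rw [rcap h2] at hr
      exact hr
    have hb : run 0 (a ++ [⟨.cap, i⟩]) = some (2 * j - 2) :=
      run_append_of h1 (by rw [rcap h2]; rfl)
    have n1 := one_le_colorings hb false
    have n2 := one_le_colorings hs false
    by_cases hj : j = 1
    · subst hj
      obtain ⟨e1, e2⟩ := split_circle h2 hβ e hs
      have h4 : colorings s [] [] = 1 := by omega
      obtain rfl := empty_of hs h4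
      exact e1
    · exfalso
      have h4 := count_ge (b := a ++ [⟨.cap, i⟩]) (s := s) (n := 2 * j - 2) (by omega)
      have h5 : a ++ [⟨.cap, i⟩] ++ s = a ++ ⟨.cap, i⟩ :: s := by simp
      rw [h5, hc] at h4
      have n1' : 1 ≤ colorings (a ++ [⟨.cap, i⟩]) [] (List.replicate (2 * j - 2) false) := n1
      have n2' : 1 ≤ colorings s (List.replicate (2 * j - 2) false) [] := n2
      have h6 : 2 ≤ colorings (a ++ [⟨.cap, i⟩]) [] (List.replicate (2 * j - 2) false) := by omega
      have h7 := Nat.mul_le_mul h6 n2'
      omega

/-- **Links.** -/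
theorem link {w : Word} (hw : run 0 w = some 0) (hn : Narrow 0 w) (hc : colorings w [] [] = 4) :
    FourEquiv 0 0 w unlink ∨ FourEquiv 0 0 w hopf := by
  rcases top w 0 hw hn with ⟨h, -⟩ | ⟨a, i, s, j, rfl, h1, h2, ⟨β, hβ, e⟩, h3⟩
  · exfalso
    have h' : colorings w [] [] = 1 := h
    omega
  · have hr : run (2 * j) (⟨.cap, i⟩ :: s) = some 0 := by
      obtain ⟨k, hk, hk'⟩ := run_append_some hw
      rw [h1] at hk
      obtain rfl := Option.some.inj hk
      exact hk'
    have hs : run (2 * j - 2) s = some 0 := by
      rw [rcap h2] at hr
      exact hr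
    have hb : run 0 (a ++ [⟨.cap, i⟩]) = some (2 * j - 2) :=
      run_append_of h1 (by rw [rcap h2]; rfl)
    have n1 := one_le_colorings hb false
    have hf := run_flip hr
    have hnf : Narrow 0 (flip (⟨.cap, i⟩ :: s)) := by
      intro c d hcd k hk
      have h5 : (⟨.cap, i⟩ :: s : Word) = flip d ++ flip c := by
        rw [← flip_append, ← hcd, flip_flip]
      have hr' := hr
      rw [h5] at hr'
      obtain ⟨k', g1, g2⟩ := run_append_some hr'
      have g3 := run_flip g2
      rw [flip_flip, hk] at g3
      obtain rfl := Option.some.inj g3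
      exact hn (a ++ flip d) (flip c) (by rw [List.append_assoc, ← h5]) k (run_append_of h1 g1)
    rcases top _ j hf hnf with ⟨-, β', hβ', e'⟩ | ⟨a', i', s', j', h6, g1, g2, -, g3⟩
    · -- both halves are in normal form
      have e2 : FourEquiv (2 * j) 0 (⟨.cap, i⟩ :: s) (flip β' ++ flip (cupsW j)) := by
        have := e'.flip
        rw [flip_flip, flip_append] at this
        exact this
      have s1 := e.append_right hr
      have s2 := e2.append_left (run_append_of (run_cupsW j) hβ.run)
      have s3 : FourEquiv 0 0 (a ++ ⟨.cap, i⟩ :: s)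
          (cupsW j ++ (β ++ flip β') ++ flip (cupsW j)) := by
        refine s1.trans (s2.trans ?_)
        rw [show cupsW j ++ (β ++ flip β') ++ flip (cupsW j) =
          cupsW j ++ β ++ (flip β' ++ flip (cupsW j)) by simp]
        exact .refl _
      have hj6 : 2 * j ≤ 6 := hn a _ rfl _ h1
      have hc' := hc
      rw [s3.colorings_eq rfl] at hc'
      have hj3 : j = 1 ∨ j = 2 ∨ j = 3 := by omega
      have hββ := hβ.append hβ'.flip
      rcases hj3 with rfl | rfl | rfl
      · exfalso
        have e3 := (one_cup hββ).append_right (q := 0) (b := [⟨.cap, 0⟩]) rfl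
        have e4 : colorings (cupsW 1 ++ (β ++ flip β') ++ flip (cupsW 1)) [] [] = 2 := by
          have := e3.colorings_eq (s := []) rfl []
          have e5 : colorings ([⟨.cup, 0⟩] ++ [⟨.cap, 0⟩]) [] [] = 2 := by decide
          rw [e5] at this
          exact this
        omega
      · rcases four_close hββ hc' with h | h
        · left; exact s3.trans h
        · right; exact s3.trans h
      · rcases six_close hββ hc' with h | h
        · left; exact s3.trans h
        · right; exact s3.trans h
    · -- a component below
      have hf' := hf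
      rw [h6, show a' ++ ⟨.cap, i'⟩ :: s' = a' ++ [⟨.cap, i'⟩] ++ s' by simp] at hf'
      obtain ⟨k, q1, q2⟩ := run_append_some hf'
      have hb' : run 0 (a' ++ [⟨.cap, i'⟩]) = some (2 * j' - 2) :=
        run_append_of g1 (by rw [rcap g2]; rfl)
      rw [hb'] at q1
      obtain rfl := Option.some.inj q1
      have n3 := one_le_colorings hb' false
      have n4 := one_le_colorings q2 false
      have n3' : 1 ≤ colorings (a' ++ [⟨.cap, i'⟩]) [] (List.replicate (2 * j' - 2) false) := n3
      have n5 : 2 ≤ colorings (a' ++ [⟨.cap, i'⟩]) [] (List.replicate (2 * j' - 2) false) := by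
        omega
      have n6 := mul_le_colorings (a' ++ [⟨.cap, i'⟩]) s' [] (List.replicate (2 * j) false)
        (List.replicate (2 * j' - 2) false)
      have n7 : 2 ≤ colorings (flip (⟨.cap, i⟩ :: s)) [] (List.replicate (2 * j) false) := by
        rw [h6, show a' ++ ⟨.cap, i'⟩ :: s' = a' ++ [⟨.cap, i'⟩] ++ s' by simp]
        have := Nat.mul_le_mul n5 n4
        omega
      rw [colorings_flip hr (s := List.replicate (2 * j) false) (t := []) (by simp) rfl] at n7
      have n8 : colorings (⟨.cap, i⟩ :: s) (List.replicate (2 * j) false) [] =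
          colorings s (List.replicate (2 * j - 2) false) [] := by
        obtain ⟨k, hk⟩ : ∃ k, 2 * j = k + 2 := ⟨2 * j - 2, by omega⟩
        rw [hk]
        simp only [colorings, sumColorings_cap]
        rw [removePair_replicate false (by omega)]
        rfl
      rw [n8] at n7
      by_cases hj : j = 1
      · subst hj
        obtain ⟨e1, e2⟩ := split_circle h2 hβ e hs
        have h4 : colorings s [] [] = 2 := by omega
        have hns : Narrow 0 s := by
          rintro c d rfl k hk
          refine hn (a ++ ⟨.cap, i⟩ :: c) d (by simp) k ?_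
          have : a ++ ⟨.cap, i⟩ :: c = a ++ [⟨.cap, i⟩] ++ c := by simp
          rw [this]
          exact run_append_of hb hk
        have e3 := (knot hs hns h4).append_left (p := 0) (a := [⟨.cup, 0⟩, ⟨.cap, 0⟩]) rfl
        left
        exact e1.trans e3
      · exfalso
        have h4 := count_ge (b := a ++ [⟨.cap, i⟩]) (s := s) (n := 2 * j - 2) (by omega)
        have h5 : a ++ [⟨.cap, i⟩] ++ s = a ++ ⟨.cap, i⟩ :: s := by simp
        rw [h5, hc] at h4
        have n1' : 1 ≤ colorings (a ++ [⟨.cap, i⟩]) [] (List.replicate (2 * j - 2) false) := n1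
        have h6 : 2 ≤ colorings (a ++ [⟨.cap, i⟩]) [] (List.replicate (2 * j - 2) false) := by omega
        have h7 := Nat.mul_le_mul h6 n7
        omega

end Pool.Agent.FMV.B3
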