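import Pool.Agent.FMV.B3.Six
import Pool.Agent.FMV.B3.Four
import Pool.Agent.FMV.Level

/-!
Normal forms for diagrams with at most six strings at every level.
-/

namespace Pool.Agent.FMV.B3

/-- `j` cups. -/
def cupsW (j : ℕ) : Word := (List.range j).map fun i => ⟨.cup, 2 * i⟩

theorem cupsW_succ (j : ℕ) : cupsW (j + 1) = cupsW j ++ [⟨.cup, 2 * j⟩] := by
  simp [cupsW, List.range_succ]

theorem rcup {n i : ℕ} (h : i ≤ n) (w : Word) : run n (⟨.cup, i⟩ :: w) = run (n + 2) w := by
  show (if i + 0 ≤ n then run (n - 0 + 2) w else none) = _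
  rw [if_pos (show i + 0 ≤ n from h)]
  rfl

theorem rcap {n i : ℕ} (h : i + 2 ≤ n) (w : Word) : run n (⟨.cap, i⟩ :: w) = run (n - 2) w := by
  show (if i + 2 ≤ n then run (n - 2 + 0) w else none) = _
  rw [if_pos h]
  rfl

theorem rpos {n i : ℕ} (h : i + 2 ≤ n) (w : Word) : run n (⟨.pos, i⟩ :: w) = run n w :=
  run_crossing (.inl rfl) h w

theorem rneg {n i : ℕ} (h : i + 2 ≤ n) (w : Word) : run n (⟨.neg, i⟩ :: w) = run n w :=
  run_crossing (.inr rfl) h w

theorem run_cupsW (j : ℕ) : run 0 (cupsW j) = some (2 * j) := by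
  induction j with
  | zero => rfl
  | succ j ih =>
      rw [cupsW_succ]
      refine run_append_of ih ?_
      rw [rcup (Nat.le_refl _)]
      rfl

/-! ### Moving cups and caps -/

theorem cup_step (k i : ℕ) (h : i + 1 ≤ k) :
    FourEquiv k (k + 2) [⟨.cup, i⟩] [⟨.cup, i + 1⟩, ⟨.neg, i⟩, ⟨.neg, i + 1⟩] := by
  have h1 : run k [(⟨.cup, i⟩ : Letter), ⟨.pos, i + 1⟩] = some (k + 2) := by
    rw [rcup (by omega), rpos (by omega)]
    simp [run]
  have h2 : run k [(⟨.cup, i + 1⟩ : Letter), ⟨.neg, i⟩] = some (k + 2) := by
    rw [rcup (by omega), rneg (by omega)]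
    simp [run]
  have s1 : FourEquiv k (k + 2) [⟨.cup, i⟩, ⟨.pos, i + 1⟩] [⟨.cup, i + 1⟩, ⟨.neg, i⟩] := by
    have := Step.mk (n := k) (m := k + 2) [] _ _ [] (Move.slide₃ i) (by simpa using h1) (by simpa using h2)
    simp only [List.nil_append, List.append_nil] at this
    exact Relation.EqvGen.rel _ _ this
  have h3 : run (k + 2) [(⟨.neg, i + 1⟩ : Letter)] = some (k + 2) := by
    rw [rneg (by omega)]
    simp [run]
  have h4 : run (k + 2) [(⟨.pos, i + 1⟩ : Letter), ⟨.neg, i + 1⟩] = some (k + 2) := by
    rw [rpos (by omega), rneg (by omega)]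
    simp [run]
  have h5 : run k [(⟨.cup, i⟩ : Letter)] = some (k + 2) := by
    rw [rcup (by omega)]
    simp [run]
  have s2 := s1.append_right h3
  have s3 := (move_q (Move.r2₁ (i + 1)) h4 rfl).append_left h5
  exact s3.symm.trans s2

theorem cup_right (k i : ℕ) (h : i ≤ k) :
    ∃ M, Br (k + 2) M ∧ FourEquiv k (k + 2) [⟨.cup, i⟩] (⟨.cup, k⟩ :: M) := by
  obtain ⟨d, rfl⟩ := Nat.exists_eq_add_of_le h
  clear h
  induction d generalizing i with
  | zero => exact ⟨[], Br.nil _, .refl _⟩
  | succ d ih =>
      obtain ⟨M, hM, e⟩ := ih (i + 1)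
      rw [show i + 1 + d = i + (d + 1) by omega] at hM e
      refine ⟨M ++ [⟨.neg, i⟩, ⟨.neg, i + 1⟩], ?_, ?_⟩
      · refine hM.append (Br.cons ⟨.inr rfl, ?_⟩ (Br.cons ⟨.inr rfl, ?_⟩ (Br.nil _)))
        · show i + 2 ≤ _
          omega
        · show i + 1 + 2 ≤ _
          omega
      · have e1 := cup_step (i + (d + 1)) i (by omega)
        refine e1.trans ?_
        have h2 : run (i + (d + 1) + 2) [(⟨.neg, i⟩ : Letter), ⟨.neg, i + 1⟩] =
            some (i + (d + 1) + 2) := by
          rw [rneg (by omega), rneg (by omega)]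
          simp [run]
        have := e.append_right h2
        simpa using this

theorem cap_step (n i : ℕ) (h : i + 3 ≤ n) :
    FourEquiv n (n - 2) [⟨.cap, i + 1⟩] [⟨.neg, i⟩, ⟨.neg, i + 1⟩, ⟨.cap, i⟩] := by
  obtain ⟨k, rfl⟩ : ∃ k, n = k + 2 := ⟨n - 2, by omega⟩
  have e := (cup_step k i (by omega)).flip
  have e1 : FMV.flip [(⟨.cup, i⟩ : Letter)] = [⟨.cap, i⟩] := rfl
  have e2 : FMV.flip [(⟨.cup, i + 1⟩ : Letter), ⟨.neg, i⟩, ⟨.neg, i + 1⟩] =
      [⟨.neg, i + 1⟩, ⟨.neg, i⟩, ⟨.cap, i + 1⟩] := rfl
  rw [e1, e2] at e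
  show FourEquiv (k + 2) k _ _
  have h1 : run (k + 2) [(⟨.neg, i⟩ : Letter), ⟨.neg, i + 1⟩] = some (k + 2) := by
    rw [rneg (by omega), rneg (by omega)]
    simp [run]
  have h0 : run (k + 2) [(⟨.pos, i⟩ : Letter), ⟨.neg, i⟩] = some (k + 2) := by
    rw [rpos (by omega), rneg (by omega)]
    simp [run]
  have h2 : run (k + 2) [(⟨.pos, i⟩ : Letter), ⟨.cap, i + 1⟩] = some k := by
    rw [rpos (by omega), rcap (by omega)]
    simp [run]
  have h3 : run (k + 2) [(⟨.neg, i + 1⟩ : Letter), ⟨.cap, i⟩] = some k := by
    rw [rneg (by omega), rcap (by omega)]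
    simp [run]
  have h4 : run (k + 2) [(⟨.neg, i⟩ : Letter)] = some (k + 2) := by
    rw [rneg (by omega)]
    simp [run]
  have h5 : run (k + 2) [(⟨.cap, i + 1⟩ : Letter)] = some k := by
    rw [rcap (by omega)]
    simp [run]
  have h6 : run (k + 2) [(⟨.neg, i⟩ : Letter), ⟨.pos, i⟩] = some (k + 2) := by
    rw [rneg (by omega), rpos (by omega)]
    simp [run]
  have s1 : FourEquiv (k + 2) k [⟨.pos, i⟩, ⟨.cap, i + 1⟩] [⟨.neg, i + 1⟩, ⟨.cap, i⟩] := by
    have := Step.mk (n := k + 2) (m := k) [] _ _ [] (Move.slide₁ i) (by simpa using h2) (by simpa using h3)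
    simp only [List.nil_append, List.append_nil] at this
    exact Relation.EqvGen.rel _ _ this
  have s2 := s1.append_left h4
  have s3 := (move_q (Move.r2₂ i) h6 rfl).append_right h5
  exact s3.symm.trans s2

theorem cap_left (n i : ℕ) (h : i + 2 ≤ n) :
    ∃ M, Br n M ∧ FourEquiv n (n - 2) [⟨.cap, i⟩] (M ++ [⟨.cap, 0⟩]) := by
  induction i with
  | zero => exact ⟨[], Br.nil _, .refl _⟩
  | succ i ih =>
      obtain ⟨M, hM, e⟩ := ih (by omega)
      refine ⟨[⟨.neg, i⟩, ⟨.neg, i + 1⟩] ++ M, ?_, ?_⟩
      · refine Br.append (Br.cons ⟨.inr rfl, ?_⟩ (Br.cons ⟨.inr rfl, ?_⟩ (Br.nil _))) hM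
        · show i + 2 ≤ _
          omega
        · show i + 1 + 2 ≤ _
          omega
      · refine (cap_step n i (by omega)).trans ?_
        have h2 : run n [(⟨.neg, i⟩ : Letter), ⟨.neg, i + 1⟩] = some n := by
          rw [rneg (by omega), rneg (by omega)]
          simp [run]
        have := e.append_left h2
        simpa using this

/-- Crossings to the left of a cup. -/
theorem br_cup {k : ℕ} {β : Word} (h : Br k β) :
    FourEquiv k (k + 2) (β ++ [⟨.cup, k⟩]) (⟨.cup, k⟩ :: β) := by
  induction β with
  | nil => exact .refl _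
  | cons l β ih =>
      have hβ : Br k β := fun x hx => h x (List.mem_cons_of_mem _ hx)
      obtain ⟨h1, h2⟩ := h l List.mem_cons_self
      have hl : run k [l] = some k := by
        rw [run_crossing h1 h2]
        rfl
      have hl' : run (k + 2) [l] = some (k + 2) := by
        rw [run_crossing h1 (by omega)]
        rfl
      have e1 := (ih hβ).append_left hl
      have hc : run k [(⟨.cup, k⟩ : Letter)] = some (k + 2) := by
        rw [rcup (by omega)]
        simp [run]
      have hm : FourEquiv k (k + 2) [l, ⟨.cup, k⟩] [⟨.cup, k⟩, l] := by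
        obtain ⟨a, i⟩ := l
        simp only at h1 h2
        obtain ⟨d, hd⟩ := Nat.exists_eq_add_of_le h2
        have ha : a.ins = 2 ∧ a.outs = 2 := by
          rcases h1 with rfl | rfl <;> exact ⟨rfl, rfl⟩
        have m := Move.far a .cup i d
        rw [ha.1, ha.2, ← hd] at m
        have r1 : run k ([(⟨a, i⟩ : Letter)] ++ [⟨.cup, k⟩]) = some (k + 2) := run_append_of hl hc
        have r2 : run k ([(⟨.cup, k⟩ : Letter)] ++ [⟨a, i⟩]) = some (k + 2) := run_append_of hc hl'
        have := Step.mk (n := k) (m := k + 2) [] _ _ [] m (by simpa using r1) (by simpa using r2)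
        simp only [List.nil_append, List.append_nil] at this
        exact Relation.EqvGen.rel _ _ this
      have e2 := hm.append_right (hβ.mono (Nat.le_add_right k 2)).run
      have e3 : FourEquiv k (k + 2) ([l] ++ (β ++ [⟨.cup, k⟩])) ([l, ⟨.cup, k⟩] ++ β) := by
        simpa using e1
      exact e3.trans e2

/-- Crossings to the right of a cap. -/
theorem br_cap {k : ℕ} {β : Word} (h : Br k β) :
    FourEquiv (k + 2) k (shift 2 β ++ [⟨.cap, 0⟩]) (⟨.cap, 0⟩ :: β) := by
  induction β with
  | nil => exact .refl _
  | cons l β ih =>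
      have hβ : Br k β := fun x hx => h x (List.mem_cons_of_mem _ hx)
      obtain ⟨h1, h2⟩ := h l List.mem_cons_self
      obtain ⟨a, i⟩ := l
      simp only at h1 h2
      have hl : run k [(⟨a, i⟩ : Letter)] = some k := by
        rw [run_crossing h1 h2]
        rfl
      have hl' : run (k + 2) [(⟨a, i + 2⟩ : Letter)] = some (k + 2) := by
        rw [run_crossing h1 (by show i + 2 + 2 ≤ k + 2; omega)]
        rfl
      have e1 := (ih hβ).append_left hl'
      have hc : run (k + 2) [(⟨.cap, 0⟩ : Letter)] = some k := by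
        rw [rcap (by omega)]
        simp [run]
      have hm : FourEquiv (k + 2) k [⟨a, i + 2⟩, ⟨.cap, 0⟩] [⟨.cap, 0⟩, ⟨a, i⟩] := by
        have m := Move.far .cap a 0 i
        simp only [Piece.ins, Piece.outs, Nat.zero_add] at m
        rw [Nat.add_comm 2 i] at m
        have r1 : run (k + 2) ([(⟨a, i + 2⟩ : Letter)] ++ [⟨.cap, 0⟩]) = some k := run_append_of hl' hc
        have r2 : run (k + 2) ([(⟨.cap, 0⟩ : Letter)] ++ [⟨a, i⟩]) = some k := run_append_of hc hl
        have := Step.mk (n := k + 2) (m := k) [] _ _ [] m (by simpa using r2) (by simpa using r1)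
        simp only [List.nil_append, List.append_nil] at this
        exact (Relation.EqvGen.rel _ _ this).symm
      have e2 := hm.append_right hβ.run
      have e3 : FourEquiv (k + 2) k (shift 2 (⟨a, i⟩ :: β) ++ [⟨.cap, 0⟩])
          ([⟨a, i + 2⟩, ⟨.cap, 0⟩] ++ β) := by
        simpa using e1
      exact e3.trans e2

/-! ### Colourings of constant colour -/

theorem swapAt_replicate (i n : ℕ) (c : Bool) :
    swapAt i (List.replicate n c) = List.replicate n c := by
  induction i generalizing n with
  | zero =>
      match n with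
      | 0 => rfl
      | 1 => rfl
      | n + 2 => rfl
  | succ i ih =>
      match n with
      | 0 => rfl
      | n + 1 => simp [List.replicate_succ, ih]

theorem removePair_replicate {i n : ℕ} (c : Bool) (h : i ≤ n) :
    removePair i (List.replicate (n + 2) c) = some (List.replicate n c) := by
  induction i generalizing n with
  | zero => simp [List.replicate_succ]
  | succ i ih =>
      match n, h with
      | n + 1, h =>
          rw [List.replicate_succ, removePair_succ, ih (n := n) (by omega)]
          simp [List.replicate_succ]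

theorem insertPair_replicate {i n : ℕ} (c : Bool) (h : i ≤ n) :
    insertPair c i (List.replicate n c) = List.replicate (n + 2) c := by
  induction i generalizing n with
  | zero => simp [List.replicate_succ]
  | succ i ih =>
      match n, h with
      | n + 1, h =>
          rw [List.replicate_succ, insertPair_succ, ih (n := n) (by omega)]
          rfl

theorem insertPair_true_ne {i : ℕ} {u : List Bool} (n : ℕ) (h : i ≤ u.length) :
    insertPair true i u ≠ List.replicate n false := by
  induction i generalizing u n with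
  | zero => cases n <;> simp [List.replicate_succ]
  | succ i ih =>
      match u, h with
      | x :: u, h =>
          simp only [List.length_cons] at h
          cases n with
          | zero => simp
          | succ n =>
              rw [insertPair_succ, List.replicate_succ]
              intro he
              exact ih n (by omega) (List.cons.inj he).2

theorem nc_cross {n : ℕ} {p : Word} {l : Letter} (hp : run 0 p = some n)
    (hl : l.kind = .pos ∨ l.kind = .neg) :
    colorings (p ++ [l]) [] (List.replicate n false) = colorings p [] (List.replicate n false) := by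
  rw [colorings_append]
  unfold colorings
  refine sumColorings_congr hp (fun u _ => ?_) rfl
  obtain ⟨k, i⟩ := l
  simp only at hl
  have key : (if swapAt i u = List.replicate n false then 1 else 0) =
      if u = List.replicate n false then 1 else 0 := by
    by_cases h : u = List.replicate n false
    · rw [if_pos h, if_pos (by rw [h, swapAt_replicate])]
    · rw [if_neg h, if_neg]
      intro h'
      apply h
      rw [← swapAt_swapAt i u, h', swapAt_replicate]
  rcases hl with rfl | rfl <;> simpa using key

theorem nc_cup {n i : ℕ} {p : Word} (hp : run 0 p = some n) (hi : i ≤ n) :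
    colorings (p ++ [⟨.cup, i⟩]) [] (List.replicate (n + 2) false) =
      colorings p [] (List.replicate n false) := by
  rw [colorings_append]
  unfold colorings
  refine sumColorings_congr hp (fun u hu => ?_) rfl
  simp only [sumColorings_cup, sumColorings_nil]
  rw [if_neg (insertPair_true_ne _ (by omega)), Nat.add_zero]
  by_cases h : u = List.replicate n false
  · rw [if_pos h, if_pos (by rw [h, insertPair_replicate _ hi])]
  · rw [if_neg h, if_neg]
    intro h'
    apply h
    have h1 := removePair_insertPair false (i := i) (s := u) (by omega)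
    rw [h', removePair_replicate _ hi] at h1
    exact (Option.some.inj h1).symm

/-- Two different colourings of the strings at one level. -/
theorem add_le_sumColorings (w : Word) (f : List Bool → ℕ) (s t t' : List Bool) (h : t ≠ t') :
    colorings w s t * f t + colorings w s t' * f t' ≤ sumColorings w f s := by
  unfold colorings
  rw [← sumColorings_mul, ← sumColorings_mul, ← sumColorings_add]
  refine sumColorings_mono _ (fun u => ?_) s
  by_cases h1 : u = t
  · subst h1
    rw [if_pos rfl, if_neg h]
    omega
  · rw [if_neg h1]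
    by_cases h2 : u = t'
    · subst h2
      rw [if_pos rfl]
      omega
    · rw [if_neg h2]
      omega

end Pool.Agent.FMV.B3
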