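import Pool.Agent.FMV.B3.Br
import Pool.Agent.FMV.B3.Cert

/-!
Three cups followed by a braid on six strings.
-/

namespace Pool.Agent.FMV.B3

/-! ### The group -/

/-- Words on six strings up to four-moves. -/
def con6 : Con (FreeMonoid ℕ) where
  r L L' := FourEquiv 6 6 (bw 5 L.toList) (bw 5 L'.toList)
  iseqv := ⟨fun _ => .refl _, .symm, .trans⟩
  mul' {w x y z} h h' := by
    have e1 : FourEquiv 6 6 (bw 5 w.toList ++ bw 5 y.toList) (bw 5 x.toList ++ bw 5 y.toList) :=
      h.append_right (run_bw (by norm_num) _)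
    have e2 : FourEquiv 6 6 (bw 5 x.toList ++ bw 5 y.toList) (bw 5 x.toList ++ bw 5 z.toList) :=
      h'.append_left (run_bw (by norm_num) _)
    simpa using e1.trans e2

/-- The monoid of classes. -/
abbrev G6 : Type := con6.Quotient

/-- The class of a word. -/
def c6 (L : List ℕ) : G6 := con6.mk' (FreeMonoid.ofList L)

theorem c6_eq {L L' : List ℕ} : c6 L = c6 L' ↔ FourEquiv 6 6 (bw 5 L) (bw 5 L') :=
  Con.eq con6

theorem c6_append (L L' : List ℕ) : c6 (L ++ L') = c6 L * c6 L' := rfl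

theorem c6_nil : c6 [] = 1 := rfl

theorem c6_cons (x : ℕ) (L : List ℕ) : c6 (x :: L) = c6 [x] * c6 L := rfl

theorem c6_surj (x : G6) : ∃ L, c6 L = x := by
  obtain ⟨w, rfl⟩ := Con.mk'_surjective x
  exact ⟨w.toList, rfl⟩

theorem c6_cancel (i : ℕ) : c6 [2 * i] * c6 [2 * i + 1] = 1 ∧ c6 [2 * i + 1] * c6 [2 * i] = 1 := by
  rw [← c6_append, ← c6_append, ← c6_nil, c6_eq, c6_eq]
  exact bw_cancel (by norm_num) i []

theorem c6_exists_inv (x : G6) : ∃ y : G6, y * x = 1 := by
  obtain ⟨L, rfl⟩ := c6_surj x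
  induction L with
  | nil => exact ⟨1, by rw [c6_nil, one_mul]⟩
  | cons p L ih =>
      obtain ⟨y, hy⟩ := ih
      have h1 : ∃ z, z * c6 [p] = 1 := by
        rcases Nat.even_or_odd' p with ⟨i, rfl | rfl⟩
        · exact ⟨_, (c6_cancel i).2⟩
        · exact ⟨_, (c6_cancel i).1⟩
      obtain ⟨z, hz⟩ := h1
      refine ⟨y * z, ?_⟩
      have e : y * z * c6 (p :: L) = y * ((z * c6 [p]) * c6 L) := by
        rw [c6_cons p L]
        simp only [mul_assoc]
      rw [e, hz, one_mul, hy]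

noncomputable instance : Group G6 :=
  { (inferInstance : Monoid G6) with
    inv := fun x => Classical.choose (c6_exists_inv x)
    inv_mul_cancel := fun x => Classical.choose_spec (c6_exists_inv x) }

/-- The generators. -/
def s6 (i : ℕ) : G6 := c6 [2 * i]

theorem c6_neg (i : ℕ) : c6 [2 * i + 1] = (s6 i)⁻¹ := by
  rw [eq_inv_iff_mul_eq_one]
  exact (c6_cancel i).2

theorem lv_c6 (x : ℕ) : lv s6 x = c6 [x] := by
  unfold lv
  rcases Nat.even_or_odd' x with ⟨i, rfl | rfl⟩
  · rw [if_pos (by omega), show 2 * i / 2 = i by omega]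
    rfl
  · rw [if_neg (by omega), show (2 * i + 1) / 2 = i by omega, c6_neg]

theorem ev_c6 (w : List ℕ) : ev s6 w = c6 w := by
  induction w with
  | nil => rfl
  | cons x w ih => rw [ev_cons, ih, lv_c6, ← c6_cons]

theorem four6 (i : ℕ) (hi : i < 5) : s6 i ^ 4 = 1 := by
  have e : s6 i ^ 4 = c6 [2 * i, 2 * i, 2 * i, 2 * i] := by
    simp only [pow_succ, pow_zero, one_mul]
    rfl
  rw [e, ← c6_nil, c6_eq]
  have e2 : bw 5 [2 * i, 2 * i, 2 * i, 2 * i] = [⟨.pos, i⟩, ⟨.pos, i⟩, ⟨.pos, i⟩, ⟨.pos, i⟩] := by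
    simp only [bw, List.map_cons, List.map_nil, cr]
    rw [if_pos (by omega), show 2 * i / 2 % 5 = i by omega]
  have h := run_bw (q := 5) (by norm_num) [2 * i, 2 * i, 2 * i, 2 * i]
  rw [e2] at h ⊢
  exact move_q (Move.four i) h rfl

theorem rel6 : Rel s6 := by
  refine ⟨four6, ?_, ?_⟩
  · intro i hi
    have e : c6 [2 * i, 2 * (i + 1), 2 * i] = c6 [2 * (i + 1), 2 * i, 2 * (i + 1)] := by
      rw [c6_eq]
      have e2 : bw 5 [2 * i, 2 * (i + 1), 2 * i] = [⟨.pos, i⟩, ⟨.pos, i + 1⟩, ⟨.pos, i⟩] := by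
        simp only [bw, List.map_cons, List.map_nil, cr]
        rw [if_pos (by omega), if_pos (by omega), show 2 * i / 2 % 5 = i by omega,
          show 2 * (i + 1) / 2 % 5 = i + 1 by omega]
      have e3 : bw 5 [2 * (i + 1), 2 * i, 2 * (i + 1)] = [⟨.pos, i + 1⟩, ⟨.pos, i⟩, ⟨.pos, i + 1⟩] := by
        simp only [bw, List.map_cons, List.map_nil, cr]
        rw [if_pos (by omega), if_pos (by omega), show 2 * i / 2 % 5 = i by omega,
          show 2 * (i + 1) / 2 % 5 = i + 1 by omega]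
      have h := run_bw (q := 5) (by norm_num) [2 * i, 2 * (i + 1), 2 * i]
      have h' := run_bw (q := 5) (by norm_num) [2 * (i + 1), 2 * i, 2 * (i + 1)]
      rw [e2] at h ⊢
      rw [e3] at h' ⊢
      exact move_q (Move.r3 i) h h'
    exact e
  · intro i j hij hj
    have e : c6 [2 * i, 2 * j] = c6 [2 * j, 2 * i] := by
      rw [c6_eq]
      have e2 : bw 5 [2 * i, 2 * j] = [⟨.pos, i⟩, ⟨.pos, j⟩] := by
        simp only [bw, List.map_cons, List.map_nil, cr]
        rw [if_pos (by omega), if_pos (by omega), show 2 * i / 2 % 5 = i by omega,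
          show 2 * j / 2 % 5 = j by omega]
      have e3 : bw 5 [2 * j, 2 * i] = [⟨.pos, j⟩, ⟨.pos, i⟩] := by
        simp only [bw, List.map_cons, List.map_nil, cr]
        rw [if_pos (by omega), if_pos (by omega), show 2 * i / 2 % 5 = i by omega,
          show 2 * j / 2 % 5 = j by omega]
      have h := run_bw (q := 5) (by norm_num) [2 * i, 2 * j]
      have h' := run_bw (q := 5) (by norm_num) [2 * j, 2 * i]
      rw [e2] at h ⊢
      rw [e3] at h' ⊢
      obtain ⟨k, rfl⟩ := Nat.exists_eq_add_of_le hij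
      exact move_q (Move.far .pos .pos i k) h h'
    exact e

/-! ### The stabiliser of the cups -/

/-- Three cups. -/
def cups3 : Word := [⟨.cup, 0⟩, ⟨.cup, 2⟩, ⟨.cup, 4⟩]

theorem run_cups3 : run 0 cups3 = some 6 := rfl

/-- The stabiliser of the cups. -/
def stab : Subgroup G6 where
  carrier := {x | ∃ L, c6 L = x ∧ FourEquiv 0 6 (cups3 ++ bw 5 L) cups3}
  one_mem' := ⟨[], rfl, by simpa using FourEquiv.refl _⟩
  mul_mem' := by
    rintro _ _ ⟨L, rfl, h⟩ ⟨L', rfl, h'⟩
    refine ⟨L ++ L', c6_append _ _, ?_⟩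
    rw [bw_append, ← List.append_assoc]
    exact (h.append_right (run_bw (q := 5) (by norm_num) L')).trans h'
  inv_mem' := by
    rintro _ ⟨L, rfl, h⟩
    obtain ⟨L', e⟩ := c6_surj (c6 L)⁻¹
    refine ⟨L', e, ?_⟩
    have h1 : FourEquiv 6 6 (bw 5 (L ++ L')) (bw 5 []) := by
      rw [← c6_eq, c6_append, e, mul_inv_cancel]
      rfl
    have h2 := h.append_right (run_bw (q := 5) (by norm_num) L')
    have h3 := h1.append_left run_cups3
    rw [bw_append, ← List.append_assoc, bw_nil, List.append_nil] at h3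
    exact h2.symm.trans h3

theorem hilden_stab : ∀ w ∈ hilden, ev s6 w ∈ stab := by
  intro w hw
  simp only [hilden, List.mem_cons, List.not_mem_nil, or_false] at hw
  rcases hw with rfl | rfl | rfl | rfl | rfl | rfl | rfl <;> rw [ev_c6]
  · exact ⟨_, rfl, hil0⟩
  · exact ⟨_, rfl, hil2⟩
  · exact ⟨_, rfl, hil4⟩
  · exact ⟨_, rfl, hilA⟩
  · exact ⟨_, rfl, hilB⟩
  · exact ⟨_, rfl, hilC⟩
  · exact ⟨_, rfl, hilD⟩

/-! ### Permutations -/

/-- The transposition of a letter. -/
def px (x : ℕ) : Equiv.Perm (Fin 6) :=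
  Equiv.swap (⟨(x / 2) % 5, by omega⟩ : Fin 6) (⟨(x / 2) % 5 + 1, by omega⟩ : Fin 6)

/-- The permutation of a word. -/
def pm (w : List ℕ) : Equiv.Perm (Fin 6) := (w.map px).prod

theorem pm_append (u v : List ℕ) : pm (u ++ v) = pm u * pm v := by simp [pm]

theorem pm_cons (x : ℕ) (v : List ℕ) : pm (x :: v) = px x * pm v := by simp [pm]

theorem px_inv {x : ℕ} (hx : x < 10) : px (inv x) = px x := by
  unfold inv
  interval_cases x <;> rfl

theorem pm_invW {w : List ℕ} (hw : ∀ x ∈ w, x < 10) : pm (invW w) = (pm w)⁻¹ := by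
  induction w with
  | nil => simp [invW, pm]
  | cons x w ih =>
      have e : invW (x :: w) = invW w ++ [inv x] := by simp [invW]
      rw [e, pm_append, ih (fun y hy => hw y (List.mem_cons_of_mem _ hy)), pm_cons, pm_cons,
        px_inv (hw x List.mem_cons_self), mul_inv_rev]
      rfl

theorem swapAt_ofFn6 (i : Fin 5) (v : Fin 6 → Bool) :
    swapAt i (List.ofFn v) = List.ofFn (v ∘ Equiv.swap i.castSucc i.succ) := by
  revert i v
  decide +kernel

theorem swapAt_px (x : ℕ) (v : Fin 6 → Bool) :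
    swapAt ((x / 2) % 5) (List.ofFn v) = List.ofFn (v ∘ px x) :=
  swapAt_ofFn6 ⟨(x / 2) % 5, Nat.mod_lt _ (by norm_num)⟩ v

theorem sum_bw6 (L : List ℕ) (f : List Bool → ℕ) (v : Fin 6 → Bool) :
    sumColorings (bw 5 L) f (List.ofFn v) = f (List.ofFn (v ∘ pm L)) := by
  induction L generalizing v with
  | nil => simp [pm]
  | cons x L ih =>
      have e : sumColorings (bw 5 (x :: L)) f (List.ofFn v)
          = sumColorings (bw 5 L) f (swapAt ((x / 2) % 5) (List.ofFn v)) := by
        rw [bw_cons, cr]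
        by_cases h : x % 2 = 0
        · rw [if_pos h, sumColorings_pos]
        · rw [if_neg h, sumColorings_neg]
      rw [e, swapAt_px, ih, pm_cons]
      rfl

/-! ### The two cases -/

/-- The colours of the six strings behind the cups. -/
def vv (a b c : Bool) : Fin 6 → Bool := ![a, a, b, b, c, c]

/-- The number of colourings of `cups3 ++ β` with the first two ends joined. -/
def J (π : Equiv.Perm (Fin 6)) : ℕ :=
  (([false, true].map fun a => ([false, true].map fun b => ([false, true].map fun c =>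
    if (vv a b c ∘ π) 0 = (vv a b c ∘ π) 1 ∧ (vv a b c ∘ π) 2 = false ∧ (vv a b c ∘ π) 3 = false ∧
      (vv a b c ∘ π) 4 = false ∧ (vv a b c ∘ π) 5 = false then 1 else 0).sum).sum).sum)

theorem J_eq (L : List ℕ) :
    colorings (cups3 ++ bw 5 L ++ [⟨.cap, 0⟩]) [] [false, false, false, false] = J (pm L) := by
  have h0 : ∀ w : Fin 6 → Bool, colorings [⟨.cap, 0⟩] (List.ofFn w) [false, false, false, false] =
      if w 0 = w 1 ∧ w 2 = false ∧ w 3 = false ∧ w 4 = false ∧ w 5 = false then 1 else 0 := by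
    decide +kernel
  have h1 : ∀ a b c, sumColorings (bw 5 L ++ [⟨.cap, 0⟩])
      (fun u => if u = [false, false, false, false] then 1 else 0) [a, a, b, b, c, c] =
      if (vv a b c ∘ pm L) 0 = (vv a b c ∘ pm L) 1 ∧ (vv a b c ∘ pm L) 2 = false ∧
        (vv a b c ∘ pm L) 3 = false ∧
        (vv a b c ∘ pm L) 4 = false ∧ (vv a b c ∘ pm L) 5 = false then 1 else 0 := by
    intro a b c
    have e : [a, a, b, b, c, c] = List.ofFn (vv a b c) := by simp [vv, List.ofFn_succ]
    rw [sumColorings_append, e, sum_bw6]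
    exact h0 _
  unfold colorings
  rw [List.append_assoc, sumColorings_append]
  simp only [cups3, sumColorings_cup, sumColorings_nil, insertPair_zero, insertPair_succ, h1]
  simp only [J, List.map_cons, List.map_nil, List.sum_cons, List.sum_nil]
  ring

theorem reps_cases : ∀ v ∈ reps, (∀ x ∈ v, 4 ≤ x) ∨
    (2 ≤ J (pm [2, 0] * 1 * pm v) ∧ 2 ≤ J (pm [2, 0] * Equiv.swap 4 5 * pm v)) := by
  decide +kernel

theorem reps_lt : ∀ v ∈ reps, ∀ x ∈ v, x < 10 := by decide +kernel

theorem wgen_ok : ∀ w ∈ wgen, (∀ x ∈ w, 4 ≤ x ∧ x < 10) ∧ (pm w = 1 ∨ pm w = Equiv.swap 4 5) := by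
  decide +kernel

theorem cl_wgen {g : G6} (hg : g ∈ cl s6 wgen) :
    ∃ w, (∀ x ∈ w, 4 ≤ x ∧ x < 10) ∧ (pm w = 1 ∨ pm w = Equiv.swap 4 5) ∧ c6 w = g := by
  induction hg using Subgroup.closure_induction with
  | mem g hg =>
      obtain ⟨w, hw, rfl⟩ := hg
      exact ⟨w, (wgen_ok w hw).1, (wgen_ok w hw).2, (ev_c6 w).symm⟩
  | one => exact ⟨[], by simp, .inl rfl, rfl⟩
  | mul a b _ _ iha ihb =>
      obtain ⟨u, hu, pu, rfl⟩ := iha
      obtain ⟨v, hv, pv, rfl⟩ := ihb
      refine ⟨u ++ v, ?_, ?_, c6_append _ _⟩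
      · intro x hx
        rcases List.mem_append.1 hx with hx | hx
        · exact hu x hx
        · exact hv x hx
      · rw [pm_append]
        rcases pu with pu | pu <;> rcases pv with pv | pv <;> rw [pu, pv] <;> decide
  | inv a _ iha =>
      obtain ⟨u, hu, pu, rfl⟩ := iha
      have hu' : ∀ x ∈ u, x < 10 := fun x hx => (hu x hx).2
      refine ⟨invW u, ?_, ?_, ?_⟩
      · intro x hx
        refine ⟨?_, invW_lt hu' x hx⟩
        simp only [invW, List.mem_reverse, List.mem_map] at hx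
        obtain ⟨y, hy, rfl⟩ := hx
        obtain ⟨h1, h2⟩ := hu y hy
        unfold inv
        interval_cases y <;> decide
      · rw [pm_invW hu']
        rcases pu with pu | pu <;> rw [pu] <;> decide
      · rw [← ev_c6, ev_invW s6 hu', ev_c6]

/-- **The main step.** Either the first two ends of the diagram belong to the same string, or
one cup can be split off. -/
theorem six_cases (L : List ℕ) (hL : ∀ x ∈ L, x < 10) :
    (∃ u, (∀ x ∈ u, 4 ≤ x ∧ x < 10) ∧
      FourEquiv 0 6 (cups3 ++ bw 5 L) (cups3 ++ bw 5 ([2, 0] ++ u))) ∨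
    2 ≤ colorings (cups3 ++ bw 5 L ++ [⟨.cap, 0⟩]) [] [false, false, false, false] := by
  obtain ⟨a, ⟨La, rfl, ha⟩, u, hu, v, hv, e⟩ := decomp rel6 stab hilden_stab hL
  obtain ⟨w, hw, pw, rfl⟩ := cl_wgen hu
  rw [ev_c6, ev_c6, ev_c6, ← c6_append, ← c6_append, ← c6_append, c6_eq] at e
  have h1 : FourEquiv 0 6 (cups3 ++ bw 5 L) (cups3 ++ bw 5 ([2, 0] ++ (w ++ v))) := by
    refine (e.append_left run_cups3).trans ?_
    have h2 := ha.append_right (run_bw (q := 5) (by norm_num) ([2, 0] ++ (w ++ v)))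
    simpa using h2
  rcases reps_cases v hv with h | h
  · left
    refine ⟨w ++ v, ?_, h1⟩
    intro x hx
    rcases List.mem_append.1 hx with hx | hx
    · exact hw x hx
    · exact ⟨h x hx, reps_lt v hv x hx⟩
  · right
    have h2 := h1.append_right (q := 4) (b := [⟨.cap, 0⟩]) rfl
    rw [h2.colorings_eq rfl, J_eq, pm_append, pm_append, ← mul_assoc]
    rcases pw with pw | pw <;> rw [pw]
    · exact h.1
    · exact h.2

end Pool.Agent.FMV.B3
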