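import Mathlib.Data.Nat.Bitwise
import Mathlib.Tactic

/-!
A checker for coset enumerations.  A table of the edges with letters is coded in one number;
the instructions define new nodes or deduce new edges from closed words.
-/

namespace Pool.Agent.FMV.B3

/-- Entry number `k` of the table: `0` if there is none, else the entry plus one. -/
def get (T k : ℕ) : ℕ := Nat.mod (Nat.shiftRight T (Nat.mul 12 k)) 4096

/-- The table with entry `k` filled. -/
def put (T k c : ℕ) : ℕ := Nat.lor T (Nat.shiftLeft c (Nat.mul 12 k))

theorem get_eq (T k : ℕ) : get T k = (T >>> (12 * k)) % 2 ^ 12 := rfl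

theorem put_eq (T k c : ℕ) : put T k c = T ||| (c <<< (12 * k)) := rfl

theorem testBit_get (T k i : ℕ) : (get T k).testBit i = (decide (i < 12) && T.testBit (12 * k + i)) := by
  rw [get_eq, Nat.testBit_mod_two_pow, Nat.testBit_shiftRight]

theorem testBit_put (T k c i : ℕ) :
    (put T k c).testBit i = (T.testBit i || (decide (12 * k ≤ i) && c.testBit (i - 12 * k))) := by
  rw [put_eq, Nat.testBit_or, Nat.testBit_shiftLeft]

theorem get_put {T k c : ℕ} (hc : c < 4096) (h : get T k = 0) (j : ℕ) :
    get (put T k c) j = if j = k then c else get T j := by
  have h0 : ∀ i, i < 12 → T.testBit (12 * k + i) = false := by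
    intro i hi
    have h1 := testBit_get T k i
    rw [h, Nat.zero_testBit, decide_eq_true hi, Bool.true_and] at h1
    exact h1.symm
  have hbig : ∀ i, 12 ≤ i → c.testBit i = false := by
    intro i hi
    apply Nat.testBit_lt_two_pow
    calc c < 2 ^ 12 := hc
      _ ≤ 2 ^ i := Nat.pow_le_pow_right (by norm_num) hi
  apply Nat.eq_of_testBit_eq
  intro i
  rw [testBit_get, testBit_put]
  by_cases hj : j = k
  · subst hj
    rw [if_pos rfl]
    by_cases hi : i < 12
    · rw [h0 i hi, decide_eq_true hi, decide_eq_true (Nat.le_add_right _ _), show 12 * j + i - 12 * j = i by omega]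
      simp
    · rw [decide_eq_false hi, hbig i (by omega)]
      rfl
  · rw [if_neg hj, testBit_get]
    by_cases hi : i < 12
    · rw [decide_eq_true hi, Bool.true_and, Bool.true_and]
      by_cases hjk : 12 * k ≤ 12 * j + i
      · rw [hbig _ (by omega), Bool.and_false, Bool.or_false]
      · rw [decide_eq_false hjk, Bool.false_and, Bool.or_false]
    · rw [decide_eq_false hi, Bool.false_and, Bool.false_and]

/-- The inverse letter. -/
def inv (x : ℕ) : ℕ := bif Nat.beq (Nat.mod x 2) 0 then Nat.succ x else Nat.pred x

theorem inv_lt {x : ℕ} (h : x < 10) : inv x < 10 := by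
  unfold inv
  interval_cases x <;> decide

theorem inv_ne {x : ℕ} (h : x < 10) : inv x ≠ x := by
  unfold inv
  interval_cases x <;> decide

theorem inv_inv {x : ℕ} (h : x < 10) : inv (inv x) = x := by
  unfold inv
  interval_cases x <;> decide

/-- New edge from `a` to `b` with letter `x`. -/
def addEdge (T a x b : ℕ) : Option ℕ :=
  bif Nat.beq (get T (10 * a + x)) 0 && Nat.beq (get T (10 * b + inv x)) 0 &&
      Nat.ble a 4000 && Nat.ble b 4000 then
    some (put (put T (10 * a + x) (b + 1)) (10 * b + inv x) (a + 1))
  else none

/-- The end of the path with letters `w` from node `i`. -/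
def fw (T : ℕ) : List ℕ → ℕ → Option ℕ
  | [], i => some i
  | x :: w, i =>
      match get T (10 * i + x) with
      | 0 => none
      | j + 1 => fw T w j

/-- The node before the last letter of the path, and the last letter. -/
def walk (T : ℕ) : List ℕ → ℕ → Option (ℕ × ℕ)
  | [], _ => none
  | [x], i => some (i, x)
  | x :: y :: w, i =>
      match get T (10 * i + x) with
      | 0 => none
      | j + 1 => walk T (y :: w) j

/-- The inverse word. -/
def invW (w : List ℕ) : List ℕ := (w.map inv).reverse

/-- One instruction: `0`: new node, `1`: closed word at a node, `2`: subgroup word. -/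
def ins (R S : List (List ℕ)) (d T n : ℕ) : Option (ℕ × ℕ) :=
  match Nat.mod d 4 with
  | 0 =>
      let x := Nat.mod (d / 4) 16
      let i := d / 64
      bif Nat.ble (x + 1) 10 && Nat.ble (i + 1) n then (addEdge T i x n).map (fun T' => (T', n + 1)) else none
  | 1 =>
      match walk T (R.getD (Nat.mod (d / 4) 64) []) (d / 256) with
      | none => none
      | some (a, x) => bif Nat.ble (d / 256 + 1) n then (addEdge T a x (d / 256)).map (fun T' => (T', n)) else none
  | _ =>
      let w := S.getD (Nat.mod (d / 4) 16) []
      match fw T (w.take (d / 64)) 0, w.drop (d / 64) with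
      | some a, x :: v =>
          match fw T (invW v) 0 with
          | some b => (addEdge T a x b).map (fun T' => (T', n))
          | none => none
      | _, _ => none

/-- All instructions; `c` is the code, `m` their number. -/
def go (R S : List (List ℕ)) : ℕ → ℕ → ℕ → ℕ → Option ℕ
  | 0, _, T, _ => some T
  | m + 1, c, T, n =>
      match ins R S (Nat.mod c 1048576) T n with
      | some (T', n') => go R S m (Nat.shiftRight c 20) T' n'
      | none => none

section Sound

variable {X : Type*} (F : ℕ → X → X)

/-- The action of words. -/
def act : List ℕ → X → X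
  | [], p => p
  | x :: w, p => act w (F x p)

theorem act_append (u v : List ℕ) (p : X) : act F (u ++ v) p = act F v (act F u p) := by
  induction u generalizing p with
  | nil => rfl
  | cons x u ih => exact ih _

/-- The letters act by inverse maps. -/
def Inv : Prop := ∀ x < 10, ∀ p, F (inv x) (F x p) = p

variable {F}

theorem act_invW (hF : Inv F) {w : List ℕ} (hw : ∀ x ∈ w, x < 10) (p : X) :
    act F (invW w) (act F w p) = p := by
  induction w generalizing p with
  | nil => rfl
  | cons x w ih =>
      have e : invW (x :: w) = invW w ++ [inv x] := by simp [invW]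
      rw [e, act_append]
      have h1 := ih (fun y hy => hw y (List.mem_cons_of_mem _ hy)) (F x p)
      show F (inv x) (act F (invW w) (act F w (F x p))) = p
      rw [h1]
      exact hF x (hw x List.mem_cons_self) p

theorem invW_lt {w : List ℕ} (hw : ∀ x ∈ w, x < 10) : ∀ x ∈ invW w, x < 10 := by
  intro x hx
  simp only [invW, List.mem_reverse, List.mem_map] at hx
  obtain ⟨y, hy, rfl⟩ := hx
  exact inv_lt (hw y hy)

theorem invW_invW {w : List ℕ} (hw : ∀ x ∈ w, x < 10) : invW (invW w) = w := by
  unfold invW
  rw [List.map_reverse, List.reverse_reverse, List.map_map]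
  conv_rhs => rw [← List.map_id w]
  exact List.map_congr_left fun x hx => inv_inv (hw x hx)

/-- The table is correct for the meaning `env` of the nodes. -/
structure Ok (F : ℕ → X → X) (p : X) (T n : ℕ) (env : ℕ → X) : Prop where
  zero : env 0 = p
  pos : 0 < n
  edge : ∀ i x j, x < 10 → get T (10 * i + x) = j + 1 → i < n ∧ j < n ∧ F x (env i) = env j

theorem key_inj {i x j y : ℕ} (hx : x < 10) (hy : y < 10) (h : 10 * i + x = 10 * j + y) :
    i = j ∧ x = y := by omega

theorem Ok.add (hF : Inv F) {p : X} {T n : ℕ} {env : ℕ → X} (h : Ok F p T n env)
    {a x b T' : ℕ} (hx : x < 10) (ha : a < n) (hb : b < n) (e : F x (env a) = env b)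
    (hT : addEdge T a x b = some T') : Ok F p T' n env := by
  unfold addEdge at hT
  cases hc : (Nat.beq (get T (10 * a + x)) 0 && Nat.beq (get T (10 * b + inv x)) 0 &&
      Nat.ble a 4000 && Nat.ble b 4000) with
  | false => rw [hc] at hT; simp at hT
  | true =>
      rw [hc] at hT
      simp only [cond_true, Option.some.injEq] at hT
      simp only [Bool.and_eq_true, Nat.ble_eq] at hc
      obtain ⟨⟨⟨h1, h2⟩, h3⟩, h4⟩ := hc
      replace h1 := Nat.eq_of_beq_eq_true h1
      replace h2 := Nat.eq_of_beq_eq_true h2
      have hix := inv_lt hx
      have h5 : get (put T (10 * a + x) (b + 1)) (10 * b + inv x) = 0 := by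
        rw [get_put (by omega) h1, if_neg, h2]
        intro hk
        exact inv_ne hx (key_inj hix hx hk).2
      refine ⟨h.zero, h.pos, fun i y j hy hj => ?_⟩
      rw [← hT, get_put (by omega) h5] at hj
      split at hj
      · rename_i hk
        obtain ⟨rfl, rfl⟩ := key_inj hy hix hk
        obtain rfl : a = j := by omega
        refine ⟨hb, ha, ?_⟩
        rw [← e]
        exact hF x hx _
      · rw [get_put (by omega) h1] at hj
        split at hj
        · rename_i hk
          obtain ⟨rfl, rfl⟩ := key_inj hy hx hk
          obtain rfl : b = j := by omega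
          exact ⟨ha, hb, e⟩
        · exact h.edge i y j hy hj

theorem Ok.fw {p : X} {T n : ℕ} {env : ℕ → X} (h : Ok F p T n env) {w : List ℕ}
    (hw : ∀ x ∈ w, x < 10) {i j : ℕ} (hi : i < n) (hj : fw T w i = some j) :
    j < n ∧ act F w (env i) = env j := by
  induction w generalizing i with
  | nil =>
      simp only [B3.fw, Option.some.injEq] at hj
      subst hj
      exact ⟨hi, rfl⟩
  | cons x w ih =>
      simp only [B3.fw] at hj
      split at hj
      · simp at hj
      · rename_i k hk
        obtain ⟨-, h2, h3⟩ := h.edge i x k (hw x List.mem_cons_self) hk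
        have := ih (fun y hy => hw y (List.mem_cons_of_mem _ hy)) h2 hj
        refine ⟨this.1, ?_⟩
        show act F w (F x (env i)) = env j
        rw [h3]
        exact this.2

theorem Ok.walk {p : X} {T n : ℕ} {env : ℕ → X} (h : Ok F p T n env) {w : List ℕ}
    (hw : ∀ x ∈ w, x < 10) {i a x : ℕ} (hi : i < n) (hj : walk T w i = some (a, x)) :
    a < n ∧ x < 10 ∧ act F w (env i) = F x (env a) := by
  induction w generalizing i with
  | nil => simp [B3.walk] at hj
  | cons y w ih =>
      cases w with
      | nil =>
          simp only [B3.walk, Option.some.injEq, Prod.mk.injEq] at hj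
          obtain ⟨rfl, rfl⟩ := hj
          exact ⟨hi, hw _ List.mem_cons_self, rfl⟩
      | cons z w =>
          simp only [B3.walk] at hj
          split at hj
          · simp at hj
          · rename_i k hk
            obtain ⟨-, h2, h3⟩ := h.edge i y k (hw y List.mem_cons_self) hk
            have := ih (fun u hu => hw u (List.mem_cons_of_mem _ hu)) h2 hj
            refine ⟨this.1, this.2.1, ?_⟩
            show act F (z :: w) (F y (env i)) = F x (env a)
            rw [h3]
            exact this.2.2

/-- The words `R` are closed everywhere, the words `S` at `p`. -/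
structure Good (F : ℕ → X → X) (p : X) (R S : List (List ℕ)) : Prop where
  inv : Inv F
  rlt : ∀ w ∈ R, ∀ x ∈ w, x < 10
  slt : ∀ w ∈ S, ∀ x ∈ w, x < 10
  rel : ∀ w ∈ R, ∀ q, act F w q = q
  sub : ∀ w ∈ S, act F w p = p

theorem getD_mem {α : Type*} (l : List (List α)) (r : ℕ) : l.getD r [] ∈ l ∨ l.getD r [] = [] := by
  rw [List.getD_eq_getElem?_getD]
  cases h : l[r]? with
  | none => right; rfl
  | some w => left; simpa using List.mem_of_getElem? h

theorem Ok.ins {p : X} {R S : List (List ℕ)} (hG : Good F p R S) {T n : ℕ} {env : ℕ → X}
    (h : Ok F p T n env) {d T' n' : ℕ} (hd : ins R S d T n = some (T', n')) :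
    ∃ env', Ok F p T' n' env' := by
  unfold B3.ins at hd
  split at hd
  · -- new node
    simp only at hd
    cases hc : (Nat.ble (Nat.mod (d / 4) 16 + 1) 10 && Nat.ble (d / 64 + 1) n) with
    | false => rw [hc] at hd; simp at hd
    | true =>
        rw [hc] at hd
        simp only [cond_true, Option.map_eq_some_iff, Prod.mk.injEq] at hd
        obtain ⟨T₁, h1, rfl, rfl⟩ := hd
        simp only [Bool.and_eq_true, Nat.ble_eq] at hc
        set x := Nat.mod (d / 4) 16 with hx
        set i := d / 64 with hi
        have hx10 : x < 10 := by omega
        have hin : i < n := by omega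
        refine ⟨Function.update env n (F x (env i)), ?_⟩
        have h0 : Ok F p T (n + 1) (Function.update env n (F x (env i))) := by
          refine ⟨?_, Nat.succ_pos _, fun k y j hy hj => ?_⟩
          · rw [Function.update_of_ne (by have := h.pos; omega)]
            exact h.zero
          · obtain ⟨a1, a2, a3⟩ := h.edge k y j hy hj
            refine ⟨by omega, by omega, ?_⟩
            rw [Function.update_of_ne (by omega), Function.update_of_ne (by omega)]
            exact a3
        refine h0.add hG.inv hx10 (by omega) (Nat.lt_succ_self n) ?_ h1
        rw [Function.update_of_ne (by omega), Function.update_self]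
  · -- a closed word
    split at hd
    · simp at hd
    · rename_i a x hw
      cases hc : Nat.ble (d / 256 + 1) n with
      | false => rw [hc] at hd; simp at hd
      | true =>
          rw [hc] at hd
          simp only [cond_true, Option.map_eq_some_iff, Prod.mk.injEq] at hd
          obtain ⟨T₁, h1, rfl, rfl⟩ := hd
          simp only [Nat.ble_eq] at hc
          refine ⟨env, ?_⟩
          rcases getD_mem R (Nat.mod (d / 4) 64) with hm | hm
          · obtain ⟨b1, b2, b3⟩ := h.walk (hG.rlt _ hm) (by omega) hw
            refine h.add hG.inv b2 b1 (by omega) ?_ h1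
            rw [← b3]
            exact hG.rel _ hm _
          · rw [hm] at hw
            simp [B3.walk] at hw
  · simp only at hd
    split at hd
    · rename_i a x v ha hv
      split at hd
      · rename_i b hb
        simp only [Option.map_eq_some_iff, Prod.mk.injEq] at hd
        obtain ⟨T₁, h1, rfl, rfl⟩ := hd
        refine ⟨env, ?_⟩
        rcases getD_mem S (Nat.mod (d / 4) 16) with hm | hm
        · set w := S.getD (Nat.mod (d / 4) 16) [] with hw
          have hlt := hG.slt _ hm
          have e : w = w.take (d / 64) ++ x :: v := by
            conv_lhs => rw [← List.take_append_drop (d / 64) w, hv]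
          have l1 : ∀ y ∈ w.take (d / 64), y < 10 := fun y hy => hlt y (List.mem_of_mem_take hy)
          have l2 : x < 10 := hlt x (by rw [e]; simp)
          have l3 : ∀ y ∈ v, y < 10 := fun y hy => hlt y (by rw [e]; simp [hy])
          obtain ⟨a1, a2⟩ := h.fw l1 h.pos ha
          obtain ⟨b1, b2⟩ := h.fw (invW_lt l3) h.pos hb
          refine h.add hG.inv l2 a1 b1 ?_ h1
          have h5 := hG.sub _ hm
          rw [e, act_append, ← h.zero, a2] at h5
          have h6 : act F v (F x (env a)) = env 0 := h5
          have h7 := act_invW hG.inv l3 (F x (env a))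
          rw [h6, b2] at h7
          exact h7.symm
        · rw [hm] at hv
          simp at hv
      · simp at hd
    · simp at hd

theorem Ok.go {p : X} {R S : List (List ℕ)} (hG : Good F p R S) {m c T n T' : ℕ} {env : ℕ → X}
    (h : Ok F p T n env) (hd : go R S m c T n = some T') : ∃ n' env', Ok F p T' n' env' := by
  induction m generalizing c T n env with
  | zero =>
      simp only [B3.go, Option.some.injEq] at hd
      subst hd
      exact ⟨n, env, h⟩
  | succ m ih =>
      simp only [B3.go] at hd
      split at hd
      · rename_i T₁ n₁ h1
        obtain ⟨env₁, h2⟩ := h.ins hG h1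
        exact ih h2 hd
      · simp at hd

theorem get_zero (k : ℕ) : get 0 k = 0 := by
  rw [get_eq, Nat.zero_shiftRight, Nat.zero_mod]

theorem ok_start (F : ℕ → X → X) (p : X) : Ok F p 0 1 (fun _ => p) :=
  ⟨rfl, Nat.one_pos, fun i x j _ h => by rw [get_zero] at h; omega⟩

/-- All words of the list are closed at node `0`. -/
def closedAll (T : ℕ) : List (List ℕ) → Bool
  | [] => true
  | w :: L =>
      match fw T w 0 with
      | some 0 => closedAll T L
      | _ => false

/-- Check: after the instructions, the words `C` are closed at `0`. -/
def check (R S C : List (List ℕ)) (m c : ℕ) : Bool :=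
  match go R S m c 0 1 with
  | some T => closedAll T C
  | none => false

theorem closedAll_sound {p : X} {T n : ℕ} {env : ℕ → X} (h : Ok F p T n env) {C : List (List ℕ)}
    (hC : ∀ w ∈ C, ∀ x ∈ w, x < 10) (hd : closedAll T C = true) : ∀ w ∈ C, act F w p = p := by
  induction C with
  | nil => simp
  | cons w C ih =>
      simp only [closedAll] at hd
      split at hd
      · rename_i h1
        intro v hv
        rcases List.mem_cons.1 hv with rfl | hv
        · have := (h.fw (hC _ List.mem_cons_self) h.pos h1).2
          rw [h.zero] at this
          exact this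
        · exact ih (fun u hu => hC u (List.mem_cons_of_mem _ hu)) hd v hv
      · simp at hd

theorem check_sound {p : X} {R S C : List (List ℕ)} (hG : Good F p R S) (hC : ∀ w ∈ C, ∀ x ∈ w, x < 10)
    {m c : ℕ} (hd : check R S C m c = true) : ∀ w ∈ C, act F w p = p := by
  unfold check at hd
  split at hd
  · rename_i T h1
    obtain ⟨n', env', h2⟩ := (ok_start F p).go hG h1
    exact closedAll_sound h2 hC hd
  · simp at hd

/-- The words number `j` leads from `0` to node `j`. -/
def reach (T : ℕ) : List (List ℕ) → ℕ → Bool
  | [], _ => true
  | w :: L, j =>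
      match fw T w 0 with
      | some i => bif Nat.beq i j then reach T L (j + 1) else false
      | none => false

/-- All entries below `k` exist and are at most `N`. -/
def full (T N : ℕ) : ℕ → Bool
  | 0 => true
  | k + 1 => bif Nat.ble 1 (get T k) && Nat.ble (get T k) N then full T N k else false

theorem full_sound {T N k : ℕ} (h : full T N k = true) : ∀ i < k, 1 ≤ get T i ∧ get T i ≤ N := by
  induction k with
  | zero => intro i hi; omega
  | succ k ih =>
      simp only [full] at h
      cases hc : (Nat.ble 1 (get T k) && Nat.ble (get T k) N) with
      | false => rw [hc] at h; simp at h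
      | true =>
          rw [hc] at h
          simp only [cond_true] at h
          simp only [Bool.and_eq_true, Nat.ble_eq] at hc
          intro i hi
          rcases Nat.lt_succ_iff_lt_or_eq.1 hi with hi | rfl
          · exact ih h i hi
          · exact hc

theorem reach_sound {p : X} {T n : ℕ} {env : ℕ → X} (h : Ok F p T n env) {L : List (List ℕ)}
    (hL : ∀ w ∈ L, ∀ x ∈ w, x < 10) {j : ℕ} (hd : reach T L j = true) (i : ℕ) (hi : i < L.length) :
    act F (L.getD i []) p = env (j + i) := by
  induction L generalizing i j with
  | nil => simp at hi
  | cons w L ih =>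
      simp only [reach] at hd
      split at hd
      · rename_i k h1
        cases hb : Nat.beq k j with
        | false => rw [hb] at hd; simp at hd
        | true =>
            rw [hb] at hd
            simp only [cond_true] at hd
            have hkj : k = j := Nat.eq_of_beq_eq_true hb
            subst hkj
            cases i with
            | zero =>
                have := (h.fw (hL _ List.mem_cons_self) h.pos h1).2
                rw [h.zero] at this
                simpa using this
            | succ i =>
                have := ih (fun u hu => hL u (List.mem_cons_of_mem _ hu)) hd i (by simpa using hi)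
                rw [show k + (i + 1) = k + 1 + i by omega, ← this]
                simp
      · simp at hd

/-- Check: the table is complete with the nodes reached by the words `L`. -/
def checkFull (R S L : List (List ℕ)) (m c : ℕ) : Bool :=
  match go R S m c 0 1 with
  | some T => bif reach T L 0 then full T L.length (10 * L.length) else false
  | none => false

theorem checkFull_sound {p : X} {R S L : List (List ℕ)} (hG : Good F p R S)
    (hL : ∀ w ∈ L, ∀ x ∈ w, x < 10) (hL0 : 0 < L.length) {m c : ℕ} (hd : checkFull R S L m c = true)
    {w : List ℕ} (hw : ∀ x ∈ w, x < 10) : ∃ v ∈ L, act F w p = act F v p := by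
  unfold checkFull at hd
  split at hd
  · rename_i T h1
    obtain ⟨n', env, h2⟩ := (ok_start F p).go hG h1
    cases hr : reach T L 0 with
    | false => rw [hr] at hd; simp at hd
    | true =>
        rw [hr] at hd
        simp only [cond_true] at hd
        have hf := full_sound hd
        have key : ∀ w : List ℕ, (∀ x ∈ w, x < 10) → ∀ i < L.length, ∃ j < L.length, act F w (env i) = env j := by
          intro w hw
          induction w with
          | nil => intro i hi; exact ⟨i, hi, rfl⟩
          | cons x w ih =>
              intro i hi
              have hx := hw x List.mem_cons_self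
              obtain ⟨g1, g2⟩ := hf (10 * i + x) (by omega)
              obtain ⟨k, hk⟩ : ∃ k, get T (10 * i + x) = k + 1 := ⟨get T (10 * i + x) - 1, by omega⟩
              obtain ⟨-, -, h5⟩ := h2.edge i x k hx hk
              obtain ⟨j, hj, h6⟩ := ih (fun y hy => hw y (List.mem_cons_of_mem _ hy)) k (by omega)
              refine ⟨j, hj, ?_⟩
              show act F w (F x (env i)) = env j
              rw [h5, h6]
        obtain ⟨j, hj, h6⟩ := key w hw 0 hL0
        have h7 := reach_sound h2 hL hr j hj
        rw [Nat.zero_add] at h7
        refine ⟨L.getD j [], ?_, ?_⟩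
        · rw [List.getD_eq_getElem _ _ hj]
          exact List.getElem_mem _
        · rw [h7, ← h6, h2.zero]
  · simp at hd

end Sound

end Pool.Agent.FMV.B3
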