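import Pool.Agent.FMV.B3.Plat

/-!
Links with at most six strings at every level.
-/

namespace Pool.Agent.FMV.B3

/-- One cup and crossings of its two ends. -/
theorem one_cup {β : Word} (hβ : Br 2 β) : FourEquiv 0 2 ([⟨.cup, 0⟩] ++ β) [⟨.cup, 0⟩] := by
  induction β with
  | nil => exact .refl _
  | cons l β ih =>
      have hβ' : Br 2 β := fun x hx => hβ x (List.mem_cons_of_mem _ hx)
      obtain ⟨h1, h2⟩ := hβ l List.mem_cons_self
      obtain ⟨a, i⟩ := l
      simp only at h1 h2
      obtain rfl : i = 0 := by omega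
      have e : FourEquiv 0 2 [⟨.cup, 0⟩, ⟨a, 0⟩] [⟨.cup, 0⟩] := by
        rcases h1 with rfl | rfl
        · have := Step.mk (n := 0) (m := 2) [] _ _ [] (Move.r1₃ 0) rfl rfl
          exact Relation.EqvGen.rel _ _ this
        · have := Step.mk (n := 0) (m := 2) [] _ _ [] (Move.r1₄ 0) rfl rfl
          exact Relation.EqvGen.rel _ _ this
      have e2 := e.append_right hβ'.run
      exact e2.trans (ih hβ')

theorem unshift {u : List ℕ} (hu : ∀ x ∈ u, 4 ≤ x ∧ x < 10) :
    ∃ γ, Br 4 γ ∧ bw 5 u = shift 2 γ := by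
  induction u with
  | nil => exact ⟨[], Br.nil _, rfl⟩
  | cons x u ih =>
      obtain ⟨γ, hγ, e⟩ := ih fun y hy => hu y (List.mem_cons_of_mem _ hy)
      obtain ⟨h1, h2⟩ := hu x List.mem_cons_self
      refine ⟨⟨(cr 5 x).kind, (cr 5 x).place - 2⟩ :: γ, Br.cons ⟨cr_kind 5 x, ?_⟩ hγ, ?_⟩
      · show (x / 2) % 5 - 2 + 2 ≤ 4
        omega
      · rw [bw_cons, e, shift_cons]
        have h3 : (x / 2) % 5 - 2 + 2 = (x / 2) % 5 := by omega
        show cr 5 x :: shift 2 γ = ⟨(cr 5 x).kind, (x / 2) % 5 - 2 + 2⟩ :: shift 2 γ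
        rw [h3]
        rfl

/-- One cup can be split off, on six strings. -/
theorem six_cap {β : Word} (hβ : Br 6 β)
    (hc : colorings (cups3 ++ β ++ [⟨.cap, 0⟩]) [] [false, false, false, false] = 1) :
    ∃ γ, Br 4 γ ∧ FourEquiv 0 4 (cups3 ++ β ++ [⟨.cap, 0⟩]) (cups2 ++ γ) := by
  obtain ⟨L, hL, rfl⟩ := Br.eq_bw (q := 5) hβ
  rcases six_cases L (by simpa using hL) with ⟨u, hu, e⟩ | h
  · obtain ⟨γ, hγ, eu⟩ := unshift hu
    refine ⟨γ, hγ, ?_⟩
    have e1 := e.append_right (q := 4) (b := [⟨.cap, 0⟩]) rfl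
    refine e1.trans ?_
    rw [bw_append, eu]
    have e2 := (br_cap hγ).append_left (p := 0) (a := cups3 ++ bw 5 [2, 0]) rfl
    have e3 := nu_cap.append_right hγ.run
    have e4 : FourEquiv 0 4 (cups3 ++ (bw 5 [2, 0] ++ shift 2 γ) ++ [⟨.cap, 0⟩])
        ([⟨.cup, 0⟩, ⟨.cup, 2⟩, ⟨.cup, 4⟩, ⟨.pos, 1⟩, ⟨.pos, 0⟩, ⟨.cap, 0⟩] ++ γ) := by
      have : cups3 ++ (bw 5 [2, 0] ++ shift 2 γ) ++ [⟨.cap, 0⟩] =
        cups3 ++ bw 5 [2, 0] ++ (shift 2 γ ++ [⟨.cap, 0⟩]) := by simp
      rw [this]
      exact e2
    exact e4.trans e3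
  · omega

/-- A cap between different strings. -/
theorem cap_nf {j i : ℕ} {β : Word} (hj : 2 * j ≤ 6) (hi : i + 2 ≤ 2 * j) (hβ : Br (2 * j) β)
    (hc : colorings (cupsW j ++ β ++ [⟨.cap, i⟩]) [] (List.replicate (2 * j - 2) false) = 1) :
    ∃ γ, Br (2 * j - 2) γ ∧
      FourEquiv 0 (2 * j - 2) (cupsW j ++ β ++ [⟨.cap, i⟩]) (cupsW (j - 1) ++ γ) := by
  obtain ⟨M, hM, e⟩ := cap_left (2 * j) i hi
  have hr : run 0 (cupsW j ++ β) = some (2 * j) := run_append_of (run_cupsW j) hβ.run
  have e1 := e.append_left hr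
  have e2 : cupsW j ++ β ++ (M ++ [⟨.cap, 0⟩]) = cupsW j ++ (β ++ M) ++ [⟨.cap, 0⟩] := by simp
  rw [e2] at e1
  rw [e1.colorings_eq rfl] at hc
  have hβM := hβ.append hM
  have hj3 : j = 1 ∨ j = 2 ∨ j = 3 := by omega
  rcases hj3 with rfl | rfl | rfl
  · exfalso
    have e3 := (one_cup hβM).append_right (q := 0) (b := [⟨.cap, 0⟩]) rfl
    rw [show cupsW 1 = [⟨.cup, 0⟩] from rfl, e3.colorings_eq rfl] at hc
    exact absurd hc (by decide)
  · refine ⟨[], Br.nil _, e1.trans ?_⟩
    exact four_cap hβM hc
  · obtain ⟨γ, hγ, e3⟩ := six_cap hβM hc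
    exact ⟨γ, hγ, e1.trans e3⟩

/-- All levels have at most six strings. -/
def Narrow (n : ℕ) (w : Word) : Prop := ∀ a b : Word, w = a ++ b → ∀ k, run n a = some k → k ≤ 6

theorem Narrow.left {n : ℕ} {a b : Word} (h : Narrow n (a ++ b)) : Narrow n a := by
  rintro c d rfl k hk
  exact h c (d ++ b) (by simp) k hk

/-- The diagram is in normal form, or there is a first cap which closes a component. -/
theorem top (p : Word) : ∀ j, run 0 p = some (2 * j) → Narrow 0 p →
    (colorings p [] (List.replicate (2 * j) false) = 1 ∧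
      ∃ β, Br (2 * j) β ∧ FourEquiv 0 (2 * j) p (cupsW j ++ β)) ∨
    ∃ a i s j', p = a ++ ⟨.cap, i⟩ :: s ∧ run 0 a = some (2 * j') ∧ i + 2 ≤ 2 * j' ∧
      (∃ β, Br (2 * j') β ∧ FourEquiv 0 (2 * j') a (cupsW j' ++ β)) ∧
      colorings (a ++ [⟨.cap, i⟩]) [] (List.replicate (2 * j' - 2) false) ≠ 1 := by
  induction p using List.reverseRecOn with
  | nil =>
      intro j hj _
      simp only [run, Option.some.injEq] at hj
      obtain rfl : j = 0 := by omega
      left
      exact ⟨rfl, [], Br.nil _, .refl _⟩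
  | append_singleton p l ih =>
      intro j hj hn
      obtain ⟨k', h1, h2⟩ := run_append_some hj
      obtain ⟨a, i⟩ := l
      have hk : (⟨a, i⟩ : Letter).place + (⟨a, i⟩ : Letter).kind.ins ≤ k' := by
        by_contra hcon
        simp only [run] at h2
        rw [if_neg hcon] at h2
        simp at h2
      have hk2 : k' - a.ins + a.outs = 2 * j := by
        have h3 : run k' [(⟨a, i⟩ : Letter)] = some (k' - a.ins + a.outs) := by
          simp only [run]
          rw [if_pos hk]
        rw [h3] at h2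
        exact Option.some.inj h2
      have hk1 : i + a.ins ≤ k' := hk
      have hpar : ∃ j', k' = 2 * j' := by
        cases a
        · exact ⟨j, by simp only [Piece.ins, Piece.outs] at hk2 hk1; omega⟩
        · exact ⟨j, by simp only [Piece.ins, Piece.outs] at hk2 hk1; omega⟩
        · exact ⟨j - 1, by simp only [Piece.ins, Piece.outs] at hk2 hk1; omega⟩
        · exact ⟨j + 1, by simp only [Piece.ins, Piece.outs] at hk2 hk1; omega⟩
      obtain ⟨j', rfl⟩ := hpar
      rcases ih j' h1 hn.left with ⟨hnc, β, hβ, e⟩ | ⟨a', i', s, j'', rfl, g1, g2, g3, g4⟩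
      · cases a
        · left
          simp only [Piece.ins, Piece.outs] at hk2 hk1
          obtain rfl : j' = j := by omega
          refine ⟨by rw [nc_cross h1 (.inl rfl)]; exact hnc, β ++ [⟨.pos, i⟩],
            hβ.append (Br.cons ⟨.inl rfl, hk1⟩ (Br.nil _)), ?_⟩
          rw [← List.append_assoc]
          exact e.append_right (by rw [rpos hk1]; rfl)
        · left
          simp only [Piece.ins, Piece.outs] at hk2 hk1
          obtain rfl : j' = j := by omega
          refine ⟨by rw [nc_cross h1 (.inr rfl)]; exact hnc, β ++ [⟨.neg, i⟩],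
            hβ.append (Br.cons ⟨.inr rfl, hk1⟩ (Br.nil _)), ?_⟩
          rw [← List.append_assoc]
          exact e.append_right (by rw [rneg hk1]; rfl)
        · left
          simp only [Piece.ins, Piece.outs, Nat.add_zero] at hk2 hk1
          obtain rfl : j = j' + 1 := by omega
          refine ⟨by rw [show 2 * (j' + 1) = 2 * j' + 2 by ring, nc_cup h1 hk1]; exact hnc, ?_⟩
          obtain ⟨M, hM, e1⟩ := cup_right (2 * j') i hk1
          refine ⟨β ++ M, (hβ.mono (by omega)).append (by
            rw [show 2 * (j' + 1) = 2 * j' + 2 by ring]; exact hM), ?_⟩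
          show FourEquiv 0 (2 * j' + 2) _ _
          have s1 := e.append_right (q := 2 * j' + 2) (b := [⟨.cup, i⟩]) (by rw [rcup hk1]; rfl)
          have s2 := e1.append_left (run_append_of (run_cupsW j') hβ.run)
          have s3 := ((br_cup hβ).append_left (run_cupsW j')).append_right hM.run
          refine s1.trans (s2.trans ?_)
          rw [cupsW_succ]
          simpa using s3
        · simp only [Piece.ins, Piece.outs] at hk2 hk1
          by_cases hcc : colorings (p ++ [⟨.cap, i⟩]) [] (List.replicate (2 * j' - 2) false) = 1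
          · left
            obtain rfl : j = j' - 1 := by omega
            have hw : 2 * j' ≤ 6 := hn p [⟨.cap, i⟩] rfl _ h1
            have s1 := e.append_right (q := 2 * j' - 2) (b := [⟨.cap, i⟩]) (by rw [rcap hk1]; rfl)
            have hcc' := hcc
            rw [s1.colorings_eq rfl] at hcc'
            obtain ⟨γ, hγ, e2⟩ := cap_nf hw hk1 hβ hcc'
            rw [show 2 * (j' - 1) = 2 * j' - 2 by omega]
            exact ⟨hcc, γ, hγ, s1.trans e2⟩
          · right
            exact ⟨p, i, [], j', rfl, h1, hk1, ⟨β, hβ, e⟩, hcc⟩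
      · right
        exact ⟨a', i', s ++ [⟨a, i⟩], j'', by simp, g1, g2, g3, g4⟩

theorem nc_nf {j : ℕ} {β : Word} (hβ : Br (2 * j) β) :
    colorings (cupsW j ++ β) [] (List.replicate (2 * j) false) = 1 := by
  have h0 : ∀ j, colorings (cupsW j) [] (List.replicate (2 * j) false) = 1 := by
    intro j
    induction j with
    | zero => rfl
    | succ j ih =>
        rw [cupsW_succ, show 2 * (j + 1) = 2 * j + 2 by ring, nc_cup (run_cupsW j) (Nat.le_refl _)]
        exact ih
  induction β using List.reverseRecOn with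
  | nil => rw [List.append_nil]; exact h0 j
  | append_singleton β l ih =>
      have hβ' : Br (2 * j) β := fun x hx => hβ x (List.mem_append_left _ hx)
      rw [← List.append_assoc, nc_cross (run_append_of (run_cupsW j) hβ'.run)
        (hβ l (List.mem_append_right _ List.mem_cons_self)).1]
      exact ih hβ'

/-! ### Closing -/

theorem colorings_caps {P : Word} (hP : run 0 P = some 6) :
    colorings (P ++ flip cups3) [] [] =
      colorings P [] [false, false, false, false, false, false] +
      colorings P [] [false, false, false, false, true, true] +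
      (colorings P [] [false, false, true, true, false, false] +
      colorings P [] [false, false, true, true, true, true]) +
      (colorings P [] [true, true, false, false, false, false] +
      colorings P [] [true, true, false, false, true, true] +
      (colorings P [] [true, true, true, true, false, false] +
      colorings P [] [true, true, true, true, true, true])) := by
  have h1 : run 0 (P ++ flip cups3) = some 0 := run_append_of hP rfl
  rw [← colorings_flip h1 (s := []) (t := []) rfl rfl, flip_append, flip_flip, colorings_append]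
  have e : ∀ t : List Bool, t.length = 6 → colorings (flip P) t [] = colorings P [] t :=
    fun t ht => colorings_flip hP rfl ht
  simp only [cups3, sumColorings_cup, sumColorings_nil, insertPair_zero, insertPair_succ]
  rw [e _ rfl, e _ rfl, e _ rfl, e _ rfl, e _ rfl, e _ rfl, e _ rfl, e _ rfl]

theorem caps_two : FourEquiv 6 0 (flip cups3) [⟨.cap, 2⟩, ⟨.cap, 2⟩, ⟨.cap, 0⟩] := by
  have m := Move.far .cap .cap 2 0
  have := Step.mk (n := 6) (m := 0) [] _ _ [⟨.cap, 0⟩] m rfl rfl
  exact (Relation.EqvGen.rel _ _ this).symm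

theorem caps_zero : FourEquiv 6 0 (flip cups3) [⟨.cap, 0⟩, ⟨.cap, 2⟩, ⟨.cap, 0⟩] := by
  have e1 : FourEquiv 6 0 (flip cups3) [⟨.cap, 4⟩, ⟨.cap, 0⟩, ⟨.cap, 0⟩] :=
    (Relation.EqvGen.rel _ _
      (Step.mk (n := 6) (m := 0) [⟨.cap, 4⟩] _ _ [] (Move.far .cap .cap 0 0) rfl rfl)).symm
  have e2 : FourEquiv 6 0 [⟨.cap, 4⟩, ⟨.cap, 0⟩, ⟨.cap, 0⟩] [⟨.cap, 0⟩, ⟨.cap, 2⟩, ⟨.cap, 0⟩] :=
    (Relation.EqvGen.rel _ _
      (Step.mk (n := 6) (m := 0) [] _ _ [⟨.cap, 0⟩] (Move.far .cap .cap 0 2) rfl rfl)).symm
  exact e1.trans e2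

/-- If the cap at place `i` does not close a component then it can be split off. -/
theorem close_at {i : ℕ} (hi : i + 2 ≤ 6) {β : Word} (hβ : Br 6 β)
    (hcaps : FourEquiv 6 0 (flip cups3) [⟨.cap, i⟩, ⟨.cap, 2⟩, ⟨.cap, 0⟩])
    (hc : colorings (cups3 ++ β ++ flip cups3) [] [] = 4)
    (h : colorings (cups3 ++ β ++ [⟨.cap, i⟩]) [] [false, false, false, false] = 1) :
    FourEquiv 0 0 (cups3 ++ β ++ flip cups3) unlink ∨
      FourEquiv 0 0 (cups3 ++ β ++ flip cups3) hopf := by
  obtain ⟨γ, hγ, e⟩ := cap_nf (j := 3) (i := i) (by norm_num) hi hβ h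
  have hr : run 0 (cups3 ++ β) = some 6 := run_append_of run_cups3 hβ.run
  have e1 := hcaps.append_left hr
  have e2 := e.append_right (q := 0) (b := [⟨.cap, 2⟩, ⟨.cap, 0⟩]) rfl
  have e3 : FourEquiv 0 0 (cups3 ++ β ++ flip cups3) (cups2 ++ γ ++ [⟨.cap, 2⟩, ⟨.cap, 0⟩]) := by
    refine e1.trans ?_
    have : cups3 ++ β ++ [⟨.cap, i⟩, ⟨.cap, 2⟩, ⟨.cap, 0⟩] =
      cupsW 3 ++ β ++ [⟨.cap, i⟩] ++ [⟨.cap, 2⟩, ⟨.cap, 0⟩] := by
      simp [show cupsW 3 = cups3 from rfl]
    rw [this]
    exact e2
  rw [e3.colorings_eq rfl] at hc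
  rcases four_close hγ hc with h | h
  · left; exact e3.trans h
  · right; exact e3.trans h

theorem colorings_cap_le {i : ℕ} {P : Word} (hP : run 0 P = some 6) (t : List Bool)
    (h0 : colorings P [] [false, false, false, false, false, false] = 1)
    (h : colorings (P ++ [⟨.cap, i⟩]) [] [false, false, false, false] ≠ 1)
    (hpos : 1 ≤ colorings (P ++ [⟨.cap, i⟩]) [] [false, false, false, false])
    (ht : ∀ u : List Bool, u.length = 6 →
      colorings [⟨.cap, i⟩] u [false, false, false, false] =
        (if u = [false, false, false, false, false, false] then 1 else 0) + if u = t then 1 else 0) :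
    1 ≤ colorings P [] t := by
  have e : colorings (P ++ [⟨.cap, i⟩]) [] [false, false, false, false] =
      colorings P [] [false, false, false, false, false, false] + colorings P [] t := by
    rw [colorings_append]
    unfold colorings
    rw [← sumColorings_add]
    exact sumColorings_congr hP (fun u hu => ht u hu) rfl
  omega

theorem all_lists (P : List Bool → Prop) (h : ∀ a b c d e f : Bool, P [a, b, c, d, e, f]) :
    ∀ u : List Bool, u.length = 6 → P u := by
  intro u hu
  match u, hu with
  | [a, b, c, d, e, f], _ => exact h a b c d e f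

/-- Links with three cups and three caps. -/
theorem six_close {β : Word} (hβ : Br 6 β)
    (hc : colorings (cups3 ++ β ++ flip cups3) [] [] = 4) :
    FourEquiv 0 0 (cups3 ++ β ++ flip cups3) unlink ∨
      FourEquiv 0 0 (cups3 ++ β ++ flip cups3) hopf := by
  by_cases h4 : colorings (cups3 ++ β ++ [⟨.cap, 4⟩]) [] [false, false, false, false] = 1
  · exact close_at (by norm_num) hβ (.refl _) hc h4
  by_cases h2 : colorings (cups3 ++ β ++ [⟨.cap, 2⟩]) [] [false, false, false, false] = 1
  · exact close_at (by norm_num) hβ caps_two hc h2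
  by_cases h0 : colorings (cups3 ++ β ++ [⟨.cap, 0⟩]) [] [false, false, false, false] = 1
  · exact close_at (by norm_num) hβ caps_zero hc h0
  exfalso
  have hr : run 0 (cups3 ++ β) = some 6 := run_append_of run_cups3 hβ.run
  have n0 : ∀ i, i + 2 ≤ 6 →
      1 ≤ colorings (cups3 ++ β ++ [⟨.cap, i⟩]) [] [false, false, false, false] := by
    intro i hi
    have h5 : run 0 (cups3 ++ β ++ [⟨.cap, i⟩]) = some 4 :=
      run_append_of hr (by rw [rcap hi]; rfl)
    exact one_le_colorings h5 false
  have nc : colorings (cups3 ++ β) [] [false, false, false, false, false, false] = 1 := by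
    exact nc_nf (j := 3) hβ
  have t4 := colorings_cap_le hr [false, false, false, false, true, true] nc h4 (n0 4 (by norm_num))
    (all_lists _ (by decide))
  have t2 := colorings_cap_le hr [false, false, true, true, false, false] nc h2 (n0 2 (by norm_num))
    (all_lists _ (by decide))
  have t0 := colorings_cap_le hr [true, true, false, false, false, false] nc h0 (n0 0 (by norm_num))
    (all_lists _ (by decide))
  have c4 := colorings_not (cups3 ++ β) [] [false, false, false, false, true, true]
  have c2 := colorings_not (cups3 ++ β) [] [false, false, true, true, false, false]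
  have c0 := colorings_not (cups3 ++ β) [] [true, true, false, false, false, false]
  have cc := colorings_not (cups3 ++ β) [] [false, false, false, false, false, false]
  simp only [List.map_cons, List.map_nil, Bool.not_false, Bool.not_true] at c4 c2 c0 cc
  rw [colorings_caps hr] at hc
  omega

end Pool.Agent.FMV.B3
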